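import Pool.Agent.Y162.HW.DetB

/-!
Cyclic covers of projective spaces whose branch divisor specialises to an arrangement.
-/

namespace Pool.Agent.Y162.HW

open MvPolynomial

/-- The exponent of the `j`-th branch form in the block `i → p i` of the Frobenius map. -/
def frobExp (e p i a : ℕ) : ℕ := p * (i * a % e) / e

lemma frobExp_eq (e p i a : ℕ) :
    e * frobExp e p i a + ((p * i % e) * a % e) = p * (i * a % e) := by
  have h1 : (p * i % e) * a % e = p * (i * a % e) % e := by
    rw [Nat.mod_mul_mod, Nat.mul_mod_mod, mul_assoc]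
  rw [h1, frobExp]
  exact Nat.div_add_mod _ _

lemma sum_frobExp {J : Type*} [Fintype J] (e p i : ℕ) (a μ : J → ℕ) (hp : p.Prime) (hpe : e < p)
    (he : 0 < e) (hi : 0 < i) (hie : i < e)
    (h : ∀ i, 0 < i → i < e → ∑ j, (i * a j % e) * μ j = e) :
    ∑ j, frobExp e p i (a j) * μ j = p - 1 := by
  have hcop : Nat.Coprime p e := (Nat.Prime.coprime_iff_not_dvd hp).mpr fun hd =>
    absurd (Nat.le_of_dvd he hd) (by omega)
  have hne : 0 < p * i % e := by
    rcases Nat.eq_zero_or_pos (p * i % e) with h0 | h0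
    · exfalso
      have hd := Nat.dvd_of_mod_eq_zero h0
      have := (Nat.Coprime.dvd_mul_left hcop.symm).mp hd
      exact absurd (Nat.le_of_dvd hi this) (by omega)
    · exact h0
  have h1 := h i hi hie
  have h2 := h (p * i % e) hne (Nat.mod_lt _ he)
  have h3 : e * ∑ j, frobExp e p i (a j) * μ j + ∑ j, ((p * i % e) * a j % e) * μ j
      = p * ∑ j, (i * a j % e) * μ j := by
    rw [Finset.mul_sum, Finset.mul_sum, ← Finset.sum_add_distrib]
    refine Finset.sum_congr rfl fun j _ => ?_
    rw [← mul_assoc p, ← frobExp_eq]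
    ring
  rw [h1, h2] at h3
  have h4 : e * (∑ j, frobExp e p i (a j) * μ j + 1) = e * p := by
    rw [mul_add, mul_one, h3, mul_comm]
  have h5 := Nat.eq_of_mul_eq_mul_left he h4
  omega

theorem cyclicMain {k κ : Type*} [Field k] [CharZero k] [Field κ] [CharZero κ] (n m e : ℕ)
    {J : Type*} [Fintype J] (a : J → ℕ)
    (F : J → MvPolynomial (Fin (n + 1)) k) (O : Subring k) (φ : O →+* κ)
    (F' : J → MvPolynomial (Fin (n + 1)) O) (hF' : ∀ j, map O.subtype (F' j) = F j)
    (l : Fin (m + n) → Fin (n + 1) → κ) (hl : GenPos l)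
    (μ : J → Fin (m + n) → ℕ) (δ : J → ℕ) (q : J → MvPolynomial (Fin (n + 1)) κ)
    (hq : ∀ j, (q j).IsHomogeneous (δ j)) (hqv : ∀ j, NonvanishingAtVertices l (q j))
    (hred : ∀ j, map φ (F' j) = q j * ∏ ι, lin (l ι) ^ μ j ι)
    (hμ : ∀ i, 0 < i → i < e → ∀ ι, ∑ j, (i * a j % e) * μ j ι = e)
    (hδ : ∀ i, 0 < i → i < e → ∑ j, (i * a j % e) * δ j = e)
    (A : Subalgebra ℤ k) (hA : A.FG) (G : J → MvPolynomial (Fin (n + 1)) A)
    (hG : ∀ j, map (algebraMap A k) (G j) = F j) (c : A) (hc : c ≠ 0) :
    ∃ N : ℕ, ∀ p : ℕ, N ≤ p → p.Prime → ∃ M : Ideal A, M.IsMaximal ∧ (p : A) ∈ M ∧ c ∉ M ∧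
      ∀ i, 0 < i → i < e →
        (hwP n m p (∏ j, (map (Ideal.Quotient.mk M) (G j)) ^ frobExp e p i (a j))).det ≠ 0 := by
  classical
  let R : Subalgebra ℤ κ := Algebra.adjoin ℤ ((((
      (Finset.univ.image (fun ij : Fin (m + n) × Fin (n + 1) => l ij.1 ij.2)) ∪
      (Finset.univ.image (fun s : Fin (n + 1) ↪ Fin (m + n) =>
        ((Matrix.of fun i => l (s i)).det)⁻¹))) ∪
      (Finset.univ.biUnion fun j => (q j).coeffs)) ∪
      (Finset.univ.image (fun js : J × (Fin n ↪ Fin (m + n)) =>
        (eval (vertex fun i => l (js.2 i)) (q js.1))⁻¹)) : Finset κ) : Set κ)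
  have hR : R.FG := Subalgebra.fg_adjoin_finset _
  have hl1 : ∀ i j, l i j ∈ R := by
    intro i j
    refine Algebra.subset_adjoin ?_
    simp only [Finset.mem_coe, Finset.mem_union]
    left; left; left
    exact Finset.mem_image.mpr ⟨(i, j), Finset.mem_univ _, rfl⟩
  have hl2 : ∀ s : Fin (n + 1) ↪ Fin (m + n), ((Matrix.of fun i => l (s i)).det)⁻¹ ∈ R := by
    intro s
    refine Algebra.subset_adjoin ?_
    simp only [Finset.mem_coe, Finset.mem_union]
    left; left; right
    exact Finset.mem_image.mpr ⟨s, Finset.mem_univ _, rfl⟩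
  have hl3 : ∀ j, ∀ x ∈ (q j).coeffs, x ∈ R := by
    intro j x hx
    refine Algebra.subset_adjoin ?_
    simp only [Finset.mem_coe, Finset.mem_union]
    left; right
    exact Finset.mem_biUnion.mpr ⟨j, Finset.mem_univ _, hx⟩
  have hl4 : ∀ j, ∀ s : Fin n ↪ Fin (m + n), (eval (vertex fun i => l (s i)) (q j))⁻¹ ∈ R := by
    intro j s
    refine Algebra.subset_adjoin ?_
    simp only [Finset.mem_coe, Finset.mem_union]
    right
    exact Finset.mem_image.mpr ⟨(j, s), Finset.mem_univ _, rfl⟩
  have main := mainAbs n m F O φ F' hF' R hR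
    (fun p => (Finset.Ioo 0 e).image (fun i j => frobExp e p i (a j))) ?_ A hA G hG c hc
  · obtain ⟨N, hN⟩ := main
    refine ⟨N, fun p hp hpp => ?_⟩
    obtain ⟨M, hM, hpM, hcM, h⟩ := hN p hp hpp
    exact ⟨M, hM, hpM, hcM, fun i hi hie =>
      h _ (Finset.mem_image.mpr ⟨i, Finset.mem_Ioo.mpr ⟨hi, hie⟩, rfl⟩)⟩
  · refine ⟨e + 1, fun p hpe hpf R' hRR F₁ hF₁ L _ _ ψ c hc => ?_⟩
    have hp : p.Prime := hpf.out
    obtain ⟨i, hi, rfl⟩ := Finset.mem_image.mp hc
    obtain ⟨hi0, hie⟩ := Finset.mem_Ioo.mp hi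
    -- lifts to R'
    let l' : Fin (m + n) → Fin (n + 1) → R' := fun i j => ⟨l i j, hRR (hl1 i j)⟩
    have hq'ex : ∀ j, ∃ q' : MvPolynomial (Fin (n + 1)) R', map (algebraMap R' κ) q' = q j := by
      intro j
      have : q j ∈ Set.range (map (algebraMap R' κ)) := by
        rw [mem_range_map_iff_coeffs_subset]
        intro x hx
        exact ⟨⟨x, hRR (hl3 j x hx)⟩, rfl⟩
      exact this
    choose q' hq' using hq'ex
    have hinj : Function.Injective (map (σ := Fin (n + 1)) (algebraMap R' κ)) :=
      map_injective _ (by exact Subtype.val_injective)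
    have hF₁' : ∀ j, F₁ j = q' j * ∏ ι, lin (l' ι) ^ μ j ι := by
      intro j
      apply hinj
      rw [hF₁, hred, map_mul, hq', map_prod]
      simp only [map_pow, map_lin]
      rfl
    have hq'hom : ∀ j, (map ψ (q' j)).IsHomogeneous (δ j) := by
      intro j
      refine IsHomogeneous.map ?_ ψ
      intro v hv
      apply hq j
      rw [← hq' j, coeff_map]
      intro h0
      apply hv
      exact Subtype.val_injective h0
    have hgp : GenPos (fun i j => ψ (l' i j)) := by
      intro s hdet
      have h1 : ψ ((Matrix.of fun i => l' (s i)).det * ⟨_, hRR (hl2 s)⟩) = 0 := by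
        rw [map_mul, RingHom.map_det]
        have : ψ.mapMatrix (Matrix.of fun i => l' (s i)) = Matrix.of fun i j => ψ (l' (s i) j) := by
          ext i j; rfl
        rw [this]
        have h2 : (Matrix.of fun i j => ψ (l' (s i) j)).det = 0 := hdet
        rw [h2, zero_mul]
      have h2 : ((Matrix.of fun i => l' (s i)).det * ⟨_, hRR (hl2 s)⟩ : R') = 1 := by
        apply Subtype.val_injective
        have h3 : (((Matrix.of fun i => l' (s i)).det : R') : κ) = (Matrix.of fun i => l (s i)).det := by
          change (algebraMap R' κ) _ = _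
          rw [RingHom.map_det]
          rfl
        change (((Matrix.of fun i => l' (s i)).det : R') : κ) * ((Matrix.of fun i => l (s i)).det)⁻¹ = 1
        rw [h3]
        exact mul_inv_cancel₀ (hl s)
      rw [h2, map_one] at h1
      exact one_ne_zero h1
    have hqv' : ∀ j, NonvanishingAtVertices (fun i j => ψ (l' i j)) (map ψ (q' j)) := by
      intro j s h0
      have hev : ∀ {S : Type _} [CommRing S] (θ : R' →+* S),
          eval (vertex fun i => fun k => θ (l' (s i) k)) (map θ (q' j))
            = θ (eval (vertex fun i => l' (s i)) (q' j)) := by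
        intro S _ θ
        rw [eval_map, eval, coe_eval₂Hom, eval₂_comp_left, RingHom.comp_id]
        congr 1
        funext k
        rw [Function.comp_apply, vertex_map]
      have h1 : ψ (eval (vertex fun i => l' (s i)) (q' j) * ⟨_, hRR (hl4 j s)⟩) = 0 := by
        rw [map_mul, ← hev ψ]
        have h2 : eval (vertex fun i k => ψ (l' (s i) k)) (map ψ (q' j)) = 0 := h0
        rw [h2, zero_mul]
      have h2 : (eval (vertex fun i => l' (s i)) (q' j) * ⟨_, hRR (hl4 j s)⟩ : R') = 1 := by
        apply Subtype.val_injective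
        have h3 := hev (algebraMap R' κ)
        rw [hq'] at h3
        have h4 : eval (vertex fun i => l (s i)) (q j)
          = (algebraMap R' κ) (eval (vertex fun i => l' (s i)) (q' j)) := h3
        change (algebraMap R' κ) (eval (vertex fun i => l' (s i)) (q' j))
          * (eval (vertex fun i => l (s i)) (q j))⁻¹ = 1
        rw [← h4]
        exact mul_inv_cancel₀ (hqv j s)
      rw [h2, map_one] at h1
      exact one_ne_zero h1
    have hdet := det_ne_B p (m := m) (n := n) (fun i j => ψ (l' i j)) hgp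
      (∏ j, (map ψ (q' j)) ^ frobExp e p i (a j)) ?_ ?_
    · convert hdet using 3
      have hj : ∀ j, (map ψ (F₁ j)) ^ frobExp e p i (a j) = (map ψ (q' j)) ^ frobExp e p i (a j)
          * ∏ ι, lin (fun j => ψ (l' ι j)) ^ (μ j ι * frobExp e p i (a j)) := by
        intro j
        rw [hF₁' j, map_mul, mul_pow, map_prod, ← Finset.prod_pow]
        simp only [map_pow, map_lin, ← pow_mul]
      simp only [hj]
      rw [Finset.prod_mul_distrib]
      congr 1
      rw [Finset.prod_comm]
      refine Finset.prod_congr rfl fun ι _ => ?_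
      rw [Finset.prod_pow_eq_pow_sum]
      congr 1
      rw [← sum_frobExp e p i a (fun j => μ j ι) hp (by omega) (by omega) hi0 hie
        (fun i hi hie => hμ i hi hie ι)]
      exact Finset.sum_congr rfl fun j _ => mul_comm _ _
    · have := IsHomogeneous.prod (Finset.univ : Finset J)
        (fun j => (map ψ (q' j)) ^ frobExp e p i (a j)) (fun j => δ j * frobExp e p i (a j))
        (fun j _ => (hq'hom j).pow _)
      rw [← sum_frobExp e p i a δ hp (by omega) (by omega) hi0 hie hδ]
      convert this using 1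
      exact Finset.sum_congr rfl fun j _ => mul_comm _ _
    · intro s
      rw [map_prod]
      refine Finset.prod_ne_zero_iff.mpr fun j _ => ?_
      rw [map_pow]
      exact pow_ne_zero _ (hqv' j s)

end Pool.Agent.Y162.HW
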