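import Pool.Agent.Y162.HW.Top

/-!
The Hasse-Witt matrix of a general arrangement of hyperplanes is invertible in every
characteristic p.
-/

namespace Pool.Agent.Y162.HW

open MvPolynomial

/-- The exponent vectors of degree `m` in `n+1` variables. -/
def idx (n m : ℕ) : Finset (Fin (n + 1) →₀ ℕ) := Finset.finsuppAntidiag Finset.univ m

/-- The Hasse-Witt matrix of a form `f` of degree `m+n+1` in `n+1` variables. -/
noncomputable def hwMatrix {R : Type*} [CommRing R] (n m p : ℕ)
    (f : MvPolynomial (Fin (n + 1)) R) : Matrix (idx n m) (idx n m) R :=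
  Matrix.of fun u v => coeff (p • (u : Fin (n + 1) →₀ ℕ) + topE (Fin (n + 1)) p)
    (monomial (v : Fin (n + 1) →₀ ℕ) 1 * f ^ (p - 1))

lemma hwMatrix_map {R S : Type*} [CommRing R] [CommRing S] (φ : R →+* S) (n m p : ℕ)
    (f : MvPolynomial (Fin (n + 1)) R) :
    φ.mapMatrix (hwMatrix n m p f) = hwMatrix n m p (map φ f) := by
  ext u v
  simp [hwMatrix, RingHom.mapMatrix_apply, ← coeff_map, map_mul, map_pow, map_monomial]

lemma det_hwMatrix_map {R S : Type*} [CommRing R] [CommRing S] (φ : R →+* S) (n m p : ℕ)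
    (f : MvPolynomial (Fin (n + 1)) R) :
    φ (hwMatrix n m p f).det = (hwMatrix n m p (map φ f)).det := by
  rw [RingHom.map_det, hwMatrix_map]

lemma mem_idx {n m : ℕ} {u : Fin (n + 1) →₀ ℕ} : u ∈ idx n m ↔ u.degree = m := by
  rw [idx, Finset.mem_finsuppAntidiag, Finsupp.degree_eq_sum]
  simp

lemma card_idx (n m : ℕ) : Fintype.card (idx n m) = (m + n).choose n := by
  rw [Fintype.card_coe, idx, Finset.card_finsuppAntidiag_nat_eq_choose]
  simp only [Finset.card_univ, Fintype.card_fin]
  rw [show n + 1 + m - 1 = n + m by omega, add_comm n m]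
  exact (Nat.choose_symm_add).symm ▸ rfl

section field

variable {K : Type*} [Field K] {n m : ℕ}

lemma homog_sum {R : Type*} [CommRing R] {G : MvPolynomial (Fin (n + 1)) R}
    (hG : G.IsHomogeneous m) :
    ∑ v : idx n m, monomial (v : Fin (n + 1) →₀ ℕ) (coeff (v : Fin (n + 1) →₀ ℕ) G) = G := by
  rw [Finset.sum_coe_sort (idx n m) (fun v => monomial v (coeff v G))]
  conv_rhs => rw [G.as_sum]
  symm
  refine Finset.sum_subset (fun v hv => ?_) (fun v _ hv => ?_)
  · rw [mem_idx]
    have := hG (mem_support_iff.mp hv)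
    rw [← this]; exact DFunLike.congr_fun Finsupp.degree_eq_weight_one v
  · rw [notMem_support_iff.mp hv, map_zero]

lemma coeff_key (p : ℕ) [Fact p.Prime] [CharP K p] (P : MvPolynomial (Fin (n + 1)) K)
    {G : MvPolynomial (Fin (n + 1)) K} (hG : G.IsHomogeneous m) {u : Fin (n + 1) →₀ ℕ}
    (hu : u ∈ idx n m) :
    coeff (p • u + topE (Fin (n + 1)) p) (P * G ^ p)
      = coeff (topE (Fin (n + 1)) p) P * (coeff u G) ^ p := by
  have hp := (Fact.out : p.Prime).pos
  conv_lhs => rw [← homog_sum hG, sum_pow_char, Finset.mul_sum, coeff_sum]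
  rw [Finset.sum_eq_single (⟨u, hu⟩ : idx n m)]
  · simp only [monomial_pow]
    rw [coeff_mul_monomial', if_pos (by simp)]
    rw [add_tsub_cancel_left]
  · rintro ⟨w, hw⟩ _ hne
    simp only [monomial_pow]
    rw [coeff_mul_monomial', if_neg]
    intro hle
    apply hne
    have hwu : ∀ i, w i ≤ u i := by
      intro i
      have := hle i
      simp only [Finsupp.coe_smul, Pi.smul_apply, smul_eq_mul, Finsupp.coe_add, Pi.add_apply,
        topE_apply] at this
      by_contra hlt
      push Not at hlt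
      have h1 : p * (u i + 1) ≤ p * w i := Nat.mul_le_mul_left _ hlt
      rw [mul_add, mul_one] at h1
      omega
    have hd1 := mem_idx.mp hw
    have hd2 := mem_idx.mp hu
    rw [Finsupp.degree_eq_sum] at hd1 hd2
    have := (Finset.sum_eq_sum_iff_of_le (fun i _ => hwu i)).mp (hd1.trans hd2.symm)
    apply Subtype.ext
    ext i
    exact this i (Finset.mem_univ i)
  · intro h; exact absurd (Finset.mem_univ _) h

lemma mulVec_key (p : ℕ) [Fact p.Prime] [CharP K p] (P G : MvPolynomial (Fin (n + 1)) K)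
    (hG : G.IsHomogeneous m) (u : idx n m) :
    (hwMatrix n m p (P * G)).mulVec (fun v => coeff (v : Fin (n + 1) →₀ ℕ) G) u
      = coeff (topE (Fin (n + 1)) p) (P ^ (p - 1)) * (coeff (u : Fin (n + 1) →₀ ℕ) G) ^ p := by
  have hp := (Fact.out : p.Prime).pos
  rw [← coeff_key p (P ^ (p - 1)) hG u.2]
  have h1 : P ^ (p - 1) * G ^ p = G * (P * G) ^ (p - 1) := by
    rw [mul_pow, ← mul_assoc, mul_comm G, mul_assoc, ← pow_succ', Nat.sub_add_cancel hp]
  rw [h1]
  have h2 : G * (P * G) ^ (p - 1) = ∑ v : idx n m,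
      C (coeff (v : Fin (n + 1) →₀ ℕ) G)
        * (monomial (v : Fin (n + 1) →₀ ℕ) (1 : K) * (P * G) ^ (p - 1)) := by
    conv_lhs =>
      lhs
      rw [← homog_sum hG]
    rw [Finset.sum_mul]
    refine Finset.sum_congr rfl fun v _ => ?_
    rw [← mul_assoc, C_mul_monomial, mul_one]
  rw [h2, coeff_sum]
  simp only [Matrix.mulVec, dotProduct, hwMatrix, Matrix.of_apply, coeff_C_mul]
  exact Finset.sum_congr rfl fun v _ => mul_comm _ _

/-- A system of linear forms in general position: any `n+1` of them are linearly independent. -/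
def GenPos {K : Type*} [Field K] {n d : ℕ} (l : Fin d → Fin (n + 1) → K) : Prop :=
  ∀ s : Fin (n + 1) ↪ Fin d, (Matrix.of fun i => l (s i)).det ≠ 0

lemma exists_emb {d : ℕ} (T : Finset (Fin d)) (hT : T.card = n + 1) :
    ∃ s : Fin (n + 1) ↪ Fin d, Finset.univ.map s = T :=
  ⟨(T.orderEmbOfFin hT).toEmbedding, by simp⟩

lemma eval_lin (a P : Fin (n + 1) → K) : eval P (lin a) = ∑ j, a j * P j := by
  simp [lin]

lemma exists_vertex {d : ℕ} (l : Fin d → Fin (n + 1) → K) (S : Finset (Fin d))
    (hS : S.card = n) : ∃ P : Fin (n + 1) → K, P ≠ 0 ∧ ∀ i ∈ S, eval P (lin (l i)) = 0 := by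
  have hlt : Module.finrank K (S → K) < Module.finrank K (Fin (n + 1) → K) := by
    simp [hS]
  have := LinearMap.ker_ne_bot_of_finrank_lt
    (f := (Matrix.mulVecLin (Matrix.of fun (i : S) j => l i j))) hlt
  obtain ⟨P, hP, hne⟩ := Submodule.exists_mem_ne_zero_of_ne_bot this
  refine ⟨P, hne, fun i hi => ?_⟩
  rw [LinearMap.mem_ker, Matrix.mulVecLin_apply] at hP
  have := congrFun hP ⟨i, hi⟩
  rw [eval_lin]
  simpa [Matrix.mulVec, dotProduct] using this

lemma vertex_ne {d : ℕ} {l : Fin d → Fin (n + 1) → K} (hl : GenPos l) {S : Finset (Fin d)}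
    (hS : S.card = n) {P : Fin (n + 1) → K} (hP : P ≠ 0)
    (h0 : ∀ i ∈ S, eval P (lin (l i)) = 0) {i : Fin d} (hi : i ∉ S) :
    eval P (lin (l i)) ≠ 0 := by
  intro hc
  obtain ⟨s, hs⟩ := exists_emb (n := n) (insert i S) (by rw [Finset.card_insert_of_notMem hi, hS])
  apply hP
  refine Matrix.eq_zero_of_mulVec_eq_zero (hl s) ?_
  funext j
  have hj : s j ∈ insert i S := by
    rw [← hs]; exact Finset.mem_map_of_mem _ (Finset.mem_univ j)
  have : eval P (lin (l (s j))) = 0 := by
    rcases Finset.mem_insert.mp hj with h | h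
    · rw [h]; exact hc
    · exact h0 _ h
  rw [eval_lin] at this
  simpa [Matrix.mulVec, dotProduct] using this

lemma eval_homog (p : ℕ) [Fact p.Prime] [CharP K p] {G : MvPolynomial (Fin (n + 1)) K}
    (hG : G.IsHomogeneous m) (P : Fin (n + 1) → K) :
    ∑ u : idx n m, (coeff (u : Fin (n + 1) →₀ ℕ) G) ^ p
      * (∏ j, P j ^ ((u : Fin (n + 1) →₀ ℕ) j)) ^ p = (eval P G) ^ p := by
  conv_rhs => rw [← homog_sum hG]
  rw [map_sum, sum_pow_char]
  refine Finset.sum_congr rfl fun u _ => ?_
  rw [eval_monomial, mul_pow, Finsupp.prod_fintype]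
  intro i; simp

/-- The Hasse-Witt matrix of an arrangement in general position is invertible. -/
theorem det_ne (p : ℕ) [Fact p.Prime] [CharP K p] (l : Fin (m + n + 1) → Fin (n + 1) → K)
    (hl : GenPos l) : (hwMatrix n m p (∏ i, lin (l i))).det ≠ 0 := by
  classical
  intro hdet
  obtain ⟨v, hv, hv0⟩ := Matrix.exists_vecMul_eq_zero_iff.mpr hdet
  apply hv
  -- index set of subsets of size n not containing 0
  let 𝒮 : Finset (Finset (Fin (m + n + 1))) := Finset.powersetCard n (Finset.univ.erase 0)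
  have hcard : Fintype.card 𝒮 = Fintype.card (idx n m) := by
    rw [card_idx, Fintype.card_coe, Finset.card_powersetCard]
    simp
  have hS1 : ∀ S : 𝒮, (S : Finset (Fin (m + n + 1))).card = n :=
    fun S => (Finset.mem_powersetCard.mp S.2).2
  have hS0 : ∀ S : 𝒮, (0 : Fin (m + n + 1)) ∉ (S : Finset (Fin (m + n + 1))) := fun S h =>
    Finset.notMem_erase _ _ ((Finset.mem_powersetCard.mp S.2).1 h)
  choose P hP hP0 using fun S : 𝒮 => exists_vertex l (S : Finset (Fin (m + n + 1))) (hS1 S)
  let G : 𝒮 → MvPolynomial (Fin (n + 1)) K := fun S => ∏ i ∈ (insert 0 (S : Finset (Fin (m + n + 1))))ᶜ, lin (l i)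
  have hGhom : ∀ S, (G S).IsHomogeneous m := by
    intro S
    have h := IsHomogeneous.prod ((insert 0 (S : Finset (Fin (m + n + 1))))ᶜ) (fun i => lin (l i))
      (fun _ => 1) (fun i _ => lin_homog (l i))
    have hc : ∑ _i ∈ (insert 0 (S : Finset (Fin (m + n + 1))))ᶜ, 1 = m := by
      rw [Finset.sum_const, smul_eq_mul, mul_one, Finset.card_compl,
        Finset.card_insert_of_notMem (hS0 S), hS1 S, Fintype.card_fin]
      omega
    rw [hc] at h
    exact h
  let W : Matrix 𝒮 (idx n m) K := Matrix.of fun S u => (coeff (u : Fin (n + 1) →₀ ℕ) (G S)) ^ p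
  let V : Matrix (idx n m) 𝒮 K := Matrix.of fun u S => (∏ j, (P S) j ^ ((u : Fin (n + 1) →₀ ℕ) j)) ^ p
  let D : 𝒮 → K := fun S => (eval (P S) (G S)) ^ p
  have hD : ∀ S, D S ≠ 0 := by
    intro S
    refine pow_ne_zero _ ?_
    simp only [G]
    rw [map_prod]
    refine Finset.prod_ne_zero_iff.mpr fun i hi => ?_
    refine vertex_ne hl (hS1 S) (hP S) (hP0 S) ?_
    intro h
    exact (Finset.mem_compl.mp hi) (Finset.mem_insert_of_mem h)
  have hWV : W * V = Matrix.diagonal D := by
    ext S S'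
    rw [Matrix.mul_apply]
    simp only [W, V, Matrix.of_apply]
    rw [eval_homog p (hGhom S)]
    by_cases hSS : S = S'
    · subst hSS; rw [Matrix.diagonal_apply_eq]
    · rw [Matrix.diagonal_apply_ne _ hSS]
      have : ∃ i ∈ (S' : Finset (Fin (m + n + 1))), i ∉ (S : Finset (Fin (m + n + 1))) := by
        by_contra hcon
        push Not at hcon
        exact hSS (Subtype.ext (Finset.eq_of_subset_of_card_le hcon
          (by rw [hS1 S, hS1 S'])).symm)
      obtain ⟨i, hi, hi'⟩ := this
      have hz : eval (P S') (G S) = 0 := by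
        simp only [G]
        rw [map_prod]
        refine Finset.prod_eq_zero (i := i) ?_ (hP0 S' i hi)
        rw [Finset.mem_compl, Finset.mem_insert, not_or]
        exact ⟨fun h => hS0 S' (h ▸ hi), hi'⟩
      rw [hz, zero_pow (Fact.out : p.Prime).ne_zero]
  have h1 : W * (V * Matrix.diagonal (fun S => (D S)⁻¹)) = 1 := by
    rw [← Matrix.mul_assoc, hWV, Matrix.diagonal_mul_diagonal]
    rw [← Matrix.diagonal_one]
    congr 1
    funext S
    exact mul_inv_cancel₀ (hD S)
  have h2 := (Matrix.mul_eq_one_comm_of_card_eq _ _ _ hcard).mp h1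
  have hWv : W.mulVec v = 0 := by
    funext S
    obtain ⟨s, hs⟩ := exists_emb (n := n) (insert 0 (S : Finset (Fin (m + n + 1))))
      (by rw [Finset.card_insert_of_notMem (hS0 S), hS1 S])
    have hprod : ∏ i, lin (l i) = (∏ i ∈ insert 0 (S : Finset (Fin (m + n + 1))), lin (l i)) * G S :=
      (Finset.prod_mul_prod_compl _ _).symm
    have h3 : v ⬝ᵥ ((hwMatrix n m p (∏ i, lin (l i))).mulVec
        (fun v => coeff (v : Fin (n + 1) →₀ ℕ) (G S))) = 0 := by
      rw [Matrix.dotProduct_mulVec, hv0, zero_dotProduct]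
    rw [hprod] at h3
    simp only [dotProduct, mulVec_key p _ _ (hGhom S)] at h3
    have hc : coeff (topE (Fin (n + 1)) p)
        ((∏ i ∈ insert 0 (S : Finset (Fin (m + n + 1))), lin (l i)) ^ (p - 1)) ≠ 0 := by
      have := top_ne p (Matrix.of fun i => l (s i)) (hl s)
      rw [← hs, Finset.prod_map, ← Finset.prod_pow]
      exact this
    have h4 : coeff (topE (Fin (n + 1)) p)
        ((∏ i ∈ insert 0 (S : Finset (Fin (m + n + 1))), lin (l i)) ^ (p - 1))
        * (W.mulVec v S) = 0 := by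
      rw [← h3, Matrix.mulVec, dotProduct, Finset.mul_sum]
      refine Finset.sum_congr rfl fun u _ => ?_
      simp only [W, Matrix.of_apply]
      ring
    exact (mul_eq_zero.mp h4).resolve_left hc
  calc v = (1 : Matrix (idx n m) (idx n m) K).mulVec v := (Matrix.one_mulVec v).symm
    _ = 0 := by rw [← h2, ← Matrix.mulVec_mulVec, hWv, Matrix.mulVec_zero]

end field

end Pool.Agent.Y162.HW
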