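import Pool.Agent.Y162.HW.Gen

/-!
The general determinant: `B ∏ ℓ_i^(p-1)` with `m+n` linear forms in general position and a form `B`
of degree `p-1` which does not vanish at the vertices.
-/

namespace Pool.Agent.Y162.HW

open MvPolynomial

universe v

section field

variable {K : Type*} [Field K] {n m : ℕ}

lemma mulVec_keyP (p : ℕ) [Fact p.Prime] [CharP K p] (P G : MvPolynomial (Fin (n + 1)) K)
    (hG : G.IsHomogeneous m) (u : idx n m) :
    (hwP n m p (P * G ^ (p - 1))).mulVec (fun v => coeff (v : Fin (n + 1) →₀ ℕ) G) u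
      = coeff (topE (Fin (n + 1)) p) P * (coeff (u : Fin (n + 1) →₀ ℕ) G) ^ p := by
  have hp := (Fact.out : p.Prime).pos
  rw [← coeff_key p P hG u.2]
  have h1 : P * G ^ p = G * (P * G ^ (p - 1)) := by
    obtain ⟨q, rfl⟩ : ∃ q, p = q + 1 := ⟨p - 1, by omega⟩
    simp only [Nat.add_sub_cancel]
    ring
  rw [h1]
  have h2 : G * (P * G ^ (p - 1)) = ∑ v : idx n m,
      C (coeff (v : Fin (n + 1) →₀ ℕ) G)
        * (monomial (v : Fin (n + 1) →₀ ℕ) (1 : K) * (P * G ^ (p - 1))) := by
    conv_lhs =>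
      lhs
      rw [← homog_sum hG]
    rw [Finset.sum_mul]
    refine Finset.sum_congr rfl fun v _ => ?_
    rw [← mul_assoc (C _), C_mul_monomial, mul_one]
  rw [h2, coeff_sum]
  simp only [Matrix.mulVec, dotProduct, hwP, Matrix.of_apply, coeff_C_mul]
  exact Finset.sum_congr rfl fun v _ => mul_comm _ _

/-- The values at the vertices of an arrangement: `B` does not vanish at the point of intersection
of any `n` of the hyperplanes. -/
def NonvanishingAtVertices {R : Type*} [CommRing R] {n d : ℕ} (l : Fin d → Fin (n + 1) → R)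
    (B : MvPolynomial (Fin (n + 1)) R) : Prop :=
  ∀ s : Fin n ↪ Fin d, eval (vertex fun i => l (s i)) B ≠ 0

/-- The matrix of `B ∏ ℓ_i^(p-1)` is invertible. -/
theorem det_ne_B (p : ℕ) [Fact p.Prime] [CharP K p] (l : Fin (m + n) → Fin (n + 1) → K)
    (hl : GenPos l) (B : MvPolynomial (Fin (n + 1)) K) (hB : B.IsHomogeneous (p - 1))
    (hv : NonvanishingAtVertices l B) :
    (hwP n m p (B * ∏ i, lin (l i) ^ (p - 1))).det ≠ 0 := by
  classical
  have hp := (Fact.out : p.Prime).one_lt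
  intro hdet
  obtain ⟨v, hv1, hv0⟩ := Matrix.exists_vecMul_eq_zero_iff.mpr hdet
  apply hv1
  let 𝒮 : Finset (Finset (Fin (m + n))) := Finset.powersetCard n Finset.univ
  have hcard : Fintype.card 𝒮 = Fintype.card (idx n m) := by
    rw [card_idx, Fintype.card_coe, Finset.card_powersetCard]
    simp
  have hS1 : ∀ S : 𝒮, (S : Finset (Fin (m + n))).card = n :=
    fun S => (Finset.mem_powersetCard.mp S.2).2
  let s : ∀ S : 𝒮, Fin n ↪ Fin (m + n) := fun S =>
    ((S : Finset (Fin (m + n))).orderEmbOfFin (hS1 S)).toEmbedding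
  have hs : ∀ S : 𝒮, Finset.univ.map (s S) = (S : Finset (Fin (m + n))) := by
    intro S; simp [s]
  let P : 𝒮 → Fin (n + 1) → K := fun S => vertex fun i => l (s S i)
  have hP0 : ∀ S : 𝒮, ∀ i ∈ (S : Finset (Fin (m + n))), eval (P S) (lin (l i)) = 0 := by
    intro S i hi
    rw [← hs S] at hi
    obtain ⟨j, -, rfl⟩ := Finset.mem_map.mp hi
    exact eval_vertex_zero (fun i => l (s S i)) j
  have hP : ∀ S, P S ≠ 0 := by
    intro S h0
    apply hv (s S)
    change eval (P S) B = 0
    rw [h0]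
    have hc : constantCoeff B = 0 := by
      rw [constantCoeff_eq]
      by_contra hc
      have := hB hc
      simp at this
      omega
    have h1 : eval (0 : Fin (n + 1) → K) B = constantCoeff B := by
      rw [← eval_zero']
      rfl
    rw [h1, hc]
  have hPne : ∀ S : 𝒮, ∀ i ∉ (S : Finset (Fin (m + n))), eval (P S) (lin (l i)) ≠ 0 :=
    fun S i hi => vertex_ne hl (hS1 S) (hP S) (hP0 S) hi
  let G : 𝒮 → MvPolynomial (Fin (n + 1)) K := fun S =>
    ∏ i ∈ (S : Finset (Fin (m + n)))ᶜ, lin (l i)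
  have hGhom : ∀ S, (G S).IsHomogeneous m := by
    intro S
    have h := IsHomogeneous.prod ((S : Finset (Fin (m + n)))ᶜ) (fun i => lin (l i))
      (fun _ => 1) (fun i _ => lin_homog (l i))
    have hc : ∑ _i ∈ (S : Finset (Fin (m + n)))ᶜ, 1 = m := by
      rw [Finset.sum_const, smul_eq_mul, mul_one, Finset.card_compl, hS1 S, Fintype.card_fin]
      omega
    rw [hc] at h
    exact h
  let W : Matrix 𝒮 (idx n m) K := Matrix.of fun S u => (coeff (u : Fin (n + 1) →₀ ℕ) (G S)) ^ p
  let V : Matrix (idx n m) 𝒮 K := Matrix.of fun u S => (∏ j, (P S) j ^ ((u : Fin (n + 1) →₀ ℕ) j)) ^ p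
  let D : 𝒮 → K := fun S => (eval (P S) (G S)) ^ p
  have hD : ∀ S, D S ≠ 0 := by
    intro S
    refine pow_ne_zero _ ?_
    simp only [G]
    rw [map_prod]
    exact Finset.prod_ne_zero_iff.mpr fun i hi => hPne S i (Finset.mem_compl.mp hi)
  have hWV : W * V = Matrix.diagonal D := by
    ext S S'
    rw [Matrix.mul_apply]
    simp only [W, V, Matrix.of_apply]
    rw [eval_homog p (hGhom S)]
    by_cases hSS : S = S'
    · subst hSS; rw [Matrix.diagonal_apply_eq]
    · rw [Matrix.diagonal_apply_ne _ hSS]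
      have : ∃ i ∈ (S' : Finset (Fin (m + n))), i ∉ (S : Finset (Fin (m + n))) := by
        by_contra hcon
        push Not at hcon
        exact hSS (Subtype.ext (Finset.eq_of_subset_of_card_le hcon
          (by rw [hS1 S, hS1 S'])).symm)
      obtain ⟨i, hi, hi'⟩ := this
      have hz : eval (P S') (G S) = 0 := by
        simp only [G]
        rw [map_prod]
        exact Finset.prod_eq_zero (i := i) (Finset.mem_compl.mpr hi') (hP0 S' i hi)
      rw [hz, zero_pow (Fact.out : p.Prime).ne_zero]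
  have h1 : W * (V * Matrix.diagonal (fun S => (D S)⁻¹)) = 1 := by
    rw [← Matrix.mul_assoc, hWV, Matrix.diagonal_mul_diagonal]
    rw [← Matrix.diagonal_one]
    congr 1
    funext S
    exact mul_inv_cancel₀ (hD S)
  have h2 := (Matrix.mul_eq_one_comm_of_card_eq _ _ _ hcard).mp h1
  have hWv : W.mulVec v = 0 := by
    funext S
    have hprod : B * ∏ i, lin (l i) ^ (p - 1)
        = (B * ∏ i ∈ (S : Finset (Fin (m + n))), lin (l i) ^ (p - 1)) * G S ^ (p - 1) := by
      rw [← Finset.prod_mul_prod_compl (S : Finset (Fin (m + n))) (fun i => lin (l i) ^ (p - 1)),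
        mul_assoc]
      simp only [G]
      rw [Finset.prod_pow (S : Finset (Fin (m + n)))ᶜ]
    have h3 : v ⬝ᵥ ((hwP n m p (B * ∏ i, lin (l i) ^ (p - 1))).mulVec
        (fun v => coeff (v : Fin (n + 1) →₀ ℕ) (G S))) = 0 := by
      rw [Matrix.dotProduct_mulVec, hv0, zero_dotProduct]
    rw [hprod] at h3
    simp only [dotProduct, mulVec_keyP p _ _ (hGhom S)] at h3
    have hc : coeff (topE (Fin (n + 1)) p)
        (B * ∏ i ∈ (S : Finset (Fin (m + n))), lin (l i) ^ (p - 1)) ≠ 0 := by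
      have := top_ne_B p (fun i => l (s S i)) B hB (hv (s S))
      rw [← hs S, Finset.prod_map]
      exact this
    have h4 : coeff (topE (Fin (n + 1)) p)
        (B * ∏ i ∈ (S : Finset (Fin (m + n))), lin (l i) ^ (p - 1))
        * (W.mulVec v S) = 0 := by
      rw [← h3, Matrix.mulVec, dotProduct, Finset.mul_sum]
      refine Finset.sum_congr rfl fun u _ => ?_
      simp only [W, Matrix.of_apply]
      ring
    exact (mul_eq_zero.mp h4).resolve_left hc
  calc v = (1 : Matrix (idx n m) (idx n m) K).mulVec v := (Matrix.one_mulVec v).symm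
    _ = 0 := by rw [← h2, ← Matrix.mulVec_mulVec, hWv, Matrix.mulVec_zero]

end field

/-- The abstract spreading theorem for families of forms. -/
theorem mainAbs {k : Type*} {κ : Type v} [Field k] [CharZero k] [Field κ] [CharZero κ] (n m : ℕ)
    {J : Type*} [Fintype J]
    (F : J → MvPolynomial (Fin (n + 1)) k) (O : Subring k) (φ : O →+* κ)
    (F' : J → MvPolynomial (Fin (n + 1)) O) (hF' : ∀ j, map O.subtype (F' j) = F j)
    (R : Subalgebra ℤ κ) (hR : R.FG) (E : ℕ → Finset (J → ℕ))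
    (H : ∃ N : ℕ, ∀ p : ℕ, N ≤ p → ∀ _ : Fact p.Prime, ∀ (R' : Subalgebra ℤ κ), R ≤ R' →
      ∀ (F₁ : J → MvPolynomial (Fin (n + 1)) R'),
      (∀ j, map (algebraMap R' κ) (F₁ j) = map φ (F' j)) →
      ∀ (L : Type v) [Field L] [CharP L p] (ψ : R' →+* L), ∀ c ∈ E p,
      (hwP n m p (∏ j, (map ψ (F₁ j)) ^ c j)).det ≠ 0)
    (A : Subalgebra ℤ k) (hA : A.FG) (G : J → MvPolynomial (Fin (n + 1)) A)
    (hG : ∀ j, map (algebraMap A k) (G j) = F j) (a : A) (ha : a ≠ 0) :
    ∃ N : ℕ, ∀ p : ℕ, N ≤ p → p.Prime → ∃ M : Ideal A, M.IsMaximal ∧ (p : A) ∈ M ∧ a ∉ M ∧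
      ∀ c ∈ E p, (hwP n m p (∏ j, (map (Ideal.Quotient.mk M) (G j)) ^ c j)).det ≠ 0 := by
  classical
  let C₀ : Subalgebra ℤ k := Algebra.adjoin ℤ ((Finset.univ.biUnion fun j => (F j).coeffs : Finset k) : Set k)
  have hC₀ : C₀.FG := Subalgebra.fg_adjoin_finset _
  have hCA : C₀ ≤ A := by
    refine Algebra.adjoin_le ?_
    intro x hx
    rw [Finset.mem_coe, Finset.mem_biUnion] at hx
    obtain ⟨j, -, hx⟩ := hx
    have : x ∈ (map (algebraMap A k) (G j)).coeffs := by rw [hG]; exact hx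
    have h2 := coe_coeffs_map (algebraMap A k) (G j) this
    obtain ⟨y, _, rfl⟩ := h2
    exact y.2
  have hCO : C₀ ≤ subalgebraOfSubring O := by
    refine Algebra.adjoin_le ?_
    intro x hx
    rw [Finset.mem_coe, Finset.mem_biUnion] at hx
    obtain ⟨j, -, hx⟩ := hx
    have : x ∈ (map O.subtype (F' j)).coeffs := by rw [hF']; exact hx
    have h2 := coe_coeffs_map O.subtype (F' j) this
    obtain ⟨y, _, rfl⟩ := h2
    exact y.2
  have hfC : Algebra.FiniteType ℤ C₀ := (Subalgebra.fg_iff_finiteType _).mp hC₀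
  have hfA : Algebra.FiniteType ℤ A := (Subalgebra.fg_iff_finiteType _).mp hA
  have hFCex : ∀ j, ∃ FC : MvPolynomial (Fin (n + 1)) C₀, map (algebraMap C₀ k) FC = F j := by
    intro j
    have : F j ∈ Set.range (map (algebraMap C₀ k)) := by
      rw [mem_range_map_iff_coeffs_subset]
      intro x hx
      exact ⟨⟨x, Algebra.subset_adjoin (by
        rw [Finset.mem_coe, Finset.mem_biUnion]; exact ⟨j, Finset.mem_univ _, hx⟩)⟩, rfl⟩
    exact this
  choose FC hFC using hFCex
  let f : C₀ →+* A := (Subalgebra.inclusion hCA).toRingHom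
  have hf : Function.Injective f := Subalgebra.inclusion_injective hCA
  let tO : C₀ →+* O := (algebraMap C₀ k).codRestrict O (fun x => hCO x.2)
  have hfG : ∀ j, map f (FC j) = G j := by
    intro j
    apply map_injective (algebraMap A k) (by exact Subtype.val_injective)
    rw [hG, map_map]
    exact hFC j
  have htO : ∀ j, map tO (FC j) = F' j := by
    intro j
    apply map_injective O.subtype Subtype.val_injective
    rw [hF', map_map]
    exact hFC j
  let t0 : C₀ →ₐ[ℤ] κ := (φ.comp tO).toIntAlgHom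
  let R₁ : Subalgebra ℤ κ := t0.range ⊔ R
  have hR₁ : R₁.FG := by
    refine Subalgebra.FG.sup ?_ hR
    rw [← Algebra.map_top]
    exact Subalgebra.FG.map _ hfC.1
  have hfR : Algebra.FiniteType ℤ R₁ := (Subalgebra.fg_iff_finiteType _).mp hR₁
  let t : C₀ →+* R₁ := (φ.comp tO).codRestrict R₁ (fun x => (le_sup_left : _ ≤ R₁) ⟨x, rfl⟩)
  have htF : ∀ j, map (algebraMap R₁ κ) (map t (FC j)) = map φ (F' j) := by
    intro j
    have h1 : (algebraMap R₁ κ).comp t = φ.comp tO := rfl
    rw [map_map, h1, ← map_map, htO]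
  obtain ⟨N0, hN0⟩ := H
  have key := spread f hf t (fun p => ∏ c ∈ E p, (hwP n m p (∏ j, FC j ^ c j)).det) ?_ a ha
  · obtain ⟨N, hN⟩ := key
    refine ⟨N, fun p hp hpp => ?_⟩
    obtain ⟨M, hM, hpM, haM, hfM⟩ := hN p hp hpp
    refine ⟨M, hM, hpM, haM, fun c hc h0 => ?_⟩
    apply hfM
    rw [map_prod]
    refine M.mem_of_dvd (Finset.dvd_prod_of_mem _ hc) ?_
    rw [← Ideal.Quotient.eq_zero_iff_mem, ← RingHom.comp_apply, det_hwP_map, map_prod]
    simp only [map_pow, ← map_map, hfG]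
    exact h0
  · refine ⟨N0, fun p hpN hp Q hQ hpQ hmem => ?_⟩
    have hpf : Fact p.Prime := ⟨hp⟩
    let L := FractionRing (R₁ ⧸ Q)
    let ψ : R₁ →+* L := (algebraMap (R₁ ⧸ Q) L).comp (Ideal.Quotient.mk Q)
    have hψ : ∀ x ∈ Q, ψ x = 0 := by
      intro x hx
      simp [ψ, Ideal.Quotient.eq_zero_iff_mem.mpr hx]
    have hpL : (p : L) = 0 := by
      have := hψ _ hpQ
      simpa using this
    have hCP : CharP L p := (CharP.charP_iff_prime_eq_zero hp).mpr hpL
    rw [map_prod] at hmem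
    obtain ⟨c, hc, hcm⟩ := (Ideal.IsPrime.prod_mem_iff).mp hmem
    have := hN0 p hpN hpf R₁ le_sup_right (fun j => map t (FC j)) htF L ψ c hc
    apply this
    have h6 := hψ _ hcm
    rw [← RingHom.comp_apply, det_hwP_map, map_prod] at h6
    simp only [map_pow, ← map_map] at h6
    exact h6

end Pool.Agent.Y162.HW
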