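import Pool.Agent.Y162.HW.Main

/-!
A general form of the determinant: powers of linear forms times a form of degree p-1 which does not
vanish at the vertices of the arrangement.
-/

namespace Pool.Agent.Y162.HW

open MvPolynomial

/-- The matrix of the p-linear map `x^(-w) ↦ P x^(-pw)` on the top cohomology of `O(-m-n-1)` on the
projective space of dimension `n` (transposed). -/
noncomputable def hwP {R : Type*} [CommRing R] (n m p : ℕ)
    (P : MvPolynomial (Fin (n + 1)) R) : Matrix (idx n m) (idx n m) R :=
  Matrix.of fun u v => coeff (p • (u : Fin (n + 1) →₀ ℕ) + topE (Fin (n + 1)) p)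
    (monomial (v : Fin (n + 1) →₀ ℕ) 1 * P)

lemma hwP_map {R S : Type*} [CommRing R] [CommRing S] (φ : R →+* S) (n m p : ℕ)
    (f : MvPolynomial (Fin (n + 1)) R) :
    φ.mapMatrix (hwP n m p f) = hwP n m p (map φ f) := by
  ext u v
  simp [hwP, RingHom.mapMatrix_apply, ← coeff_map, map_mul, map_monomial]

lemma det_hwP_map {R S : Type*} [CommRing R] [CommRing S] (φ : R →+* S) (n m p : ℕ)
    (f : MvPolynomial (Fin (n + 1)) R) :
    φ (hwP n m p f).det = (hwP n m p (map φ f)).det := by
  rw [RingHom.map_det, hwP_map]

/-- The point of intersection of `n` hyperplanes (the vector of the maximal minors). -/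
def vertex {R : Type*} [CommRing R] {n : ℕ} (a : Fin n → Fin (n + 1) → R) : Fin (n + 1) → R :=
  fun j => (-1) ^ (j : ℕ) * (Matrix.of fun i k : Fin n => a i (j.succAbove k)).det

lemma sum_vertex {R : Type*} [CommRing R] {n : ℕ} (a : Fin n → Fin (n + 1) → R)
    (b : Fin (n + 1) → R) : ∑ j, b j * vertex a j =
      (Matrix.of (Fin.cons b a : Fin (n + 1) → Fin (n + 1) → R)).det := by
  rw [Matrix.det_succ_row_zero]
  refine Finset.sum_congr rfl fun j _ => ?_
  simp only [vertex, Matrix.of_apply, Fin.cons_zero]
  have : ((Matrix.of (Fin.cons b a : Fin (n + 1) → Fin (n + 1) → R)).submatrix Fin.succ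
      j.succAbove) = Matrix.of fun i k : Fin n => a i (j.succAbove k) := by
    ext i k; simp
  rw [this]
  ring

lemma vertex_map {R S : Type*} [CommRing R] [CommRing S] (φ : R →+* S) {n : ℕ}
    (a : Fin n → Fin (n + 1) → R) (j : Fin (n + 1)) :
    φ (vertex a j) = vertex (fun i k => φ (a i k)) j := by
  simp only [vertex, map_mul, map_pow, map_neg, map_one, RingHom.map_det]
  rfl

section field

variable {K : Type*} [Field K] {n m : ℕ}

lemma eval_vertex_zero (a : Fin n → Fin (n + 1) → K) (i : Fin n) :
    eval (vertex a) (lin (a i)) = 0 := by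
  rw [eval_lin, sum_vertex]
  refine Matrix.det_zero_of_row_eq (i := 0) (j := i.succ) (Fin.succ_ne_zero i).symm ?_
  funext k
  simp

lemma coeff_zero_of_mem (p : ℕ) [Fact p.Prime] {σ : Type*} [Fintype σ] {f : MvPolynomial σ K}
    (hf : f ∈ frobI K σ p) : coeff (topE σ p) f = 0 := by
  classical
  by_contra h
  rw [frobI, mem_ideal_span_monomial_image] at hf
  obtain ⟨_, ⟨i, rfl⟩, hle⟩ := hf _ (mem_support_iff.mpr h)
  have := hle i
  simp at this
  have := (Fact.out : p.Prime).one_lt
  omega

lemma coeff_single (B : MvPolynomial (Fin (n + 1)) K) {d : ℕ} (hB : B.IsHomogeneous d) :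
    coeff (Finsupp.single 0 d) B = eval (Pi.single 0 1) B := by
  classical
  rw [eval_eq']
  by_cases hs : Finsupp.single (0 : Fin (n + 1)) d ∈ B.support
  · rw [Finset.sum_eq_single_of_mem _ hs]
    · rw [Fin.prod_univ_succ]
      simp
    · intro v hv hne
      have hdeg : v.degree = d := by
        rw [← hB (mem_support_iff.mp hv)]
        exact DFunLike.congr_fun Finsupp.degree_eq_weight_one v
      have : ∃ i : Fin n, v i.succ ≠ 0 := by
        by_contra hcon
        push Not at hcon
        apply hne
        ext i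
        refine Fin.cases ?_ (fun j => ?_) i
        · rw [Finsupp.degree_eq_sum, Fin.sum_univ_succ] at hdeg
          simp only [hcon, Finset.sum_const_zero, add_zero] at hdeg
          rw [hdeg]; simp
        · rw [hcon j]; simp
      obtain ⟨i, hi⟩ := this
      rw [Finset.prod_eq_zero (Finset.mem_univ i.succ), mul_zero]
      simp [hi]
  · rw [notMem_support_iff.mp hs]
    symm
    refine Finset.sum_eq_zero fun v hv => ?_
    have hdeg : v.degree = d := by
      rw [← hB (mem_support_iff.mp hv)]
      exact DFunLike.congr_fun Finsupp.degree_eq_weight_one v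
    have : ∃ i : Fin n, v i.succ ≠ 0 := by
      by_contra hcon
      push Not at hcon
      apply hs
      convert hv using 1
      ext i
      refine Fin.cases ?_ (fun j => ?_) i
      · rw [Finsupp.degree_eq_sum, Fin.sum_univ_succ] at hdeg
        simp only [hcon, Finset.sum_const_zero, add_zero] at hdeg
        rw [hdeg]; simp
      · rw [hcon j]; simp
    obtain ⟨i, hi⟩ := this
    rw [Finset.prod_eq_zero (Finset.mem_univ i.succ), mul_zero]
    simp [hi]

/-- The top coefficient of a form of degree `p-1` times the powers of `n` linear forms. -/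
theorem top_ne_B (p : ℕ) [Fact p.Prime] [CharP K p] (a : Fin n → Fin (n + 1) → K)
    (B : MvPolynomial (Fin (n + 1)) K) (hB : B.IsHomogeneous (p - 1))
    (hv : eval (vertex a) B ≠ 0) :
    coeff (topE (Fin (n + 1)) p) (B * ∏ i, lin (a i) ^ (p - 1)) ≠ 0 := by
  classical
  have hp := (Fact.out : p.Prime).one_lt
  -- the vertex is not zero
  have hne : ∃ j, vertex a j ≠ 0 := by
    by_contra hcon
    push Not at hcon
    apply hv
    have h0 : vertex a = 0 := funext hcon
    rw [h0]
    have hc : constantCoeff B = 0 := by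
      rw [constantCoeff_eq]
      by_contra hc
      have := hB hc
      simp at this
      omega
    have h1 : eval (0 : Fin (n + 1) → K) B = constantCoeff B := by
      rw [← eval_zero']
      rfl
    rw [h1, hc]
  obtain ⟨j, hj⟩ := hne
  let y : Fin (n + 1) → K := Pi.single j (vertex a j)⁻¹
  let A : Matrix (Fin (n + 1)) (Fin (n + 1)) K :=
    Matrix.of (Fin.cons y a : Fin (n + 1) → Fin (n + 1) → K)
  have hA : A.det = 1 := by
    rw [← sum_vertex a y, Finset.sum_eq_single j]
    · simp [y, hj]
    · intro i _ hi; simp [y, hi]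
    · simp
  have hAv : A.mulVec (vertex a) = Pi.single 0 1 := by
    funext i
    refine Fin.cases ?_ (fun i => ?_) i
    · have : A.mulVec (vertex a) 0 = ∑ j, y j * vertex a j := by
        simp [Matrix.mulVec, dotProduct, A]
      rw [this, sum_vertex, Pi.single_eq_same]
      exact hA
    · have : A.mulVec (vertex a) i.succ = ∑ j, a i j * vertex a j := by
        simp [Matrix.mulVec, dotProduct, A]
      rw [this, ← eval_lin, eval_vertex_zero, Pi.single_eq_of_ne (Fin.succ_ne_zero i)]
  have hu : IsUnit A.det := by rw [hA]; exact isUnit_one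
  have hvA : vertex a = fun i => A⁻¹ i 0 := by
    have h1 : A⁻¹.mulVec (A.mulVec (vertex a)) = vertex a := by
      rw [Matrix.mulVec_mulVec, Matrix.nonsing_inv_mul A hu, Matrix.one_mulVec]
    rw [hAv] at h1
    rw [← h1]
    funext i
    simp [Matrix.mulVec, dotProduct, Pi.single_apply]
  intro h0
  have hhom : (B * ∏ i, lin (a i) ^ (p - 1)).IsHomogeneous
      (Fintype.card (Fin (n + 1)) * (p - 1)) := by
    have := hB.mul (IsHomogeneous.prod (Finset.univ : Finset (Fin n)) (fun i => lin (a i) ^ (p - 1))
      (fun _ => 1 * (p - 1)) (fun i _ => (lin_homog (a i)).pow (p - 1)))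
    have he : p - 1 + ∑ _i : Fin n, 1 * (p - 1) = Fintype.card (Fin (n + 1)) * (p - 1) := by
      simp only [one_mul, Finset.sum_const, Finset.card_univ, Fintype.card_fin, smul_eq_mul]
      ring
    rw [he] at this
    exact this
  have hmem := mem_of_homog p hhom h0
  have hmem2 := coeff_zero_of_mem p (aeval_mem p (fun i j => A⁻¹ i j) hmem)
  have hlin : ∀ i, aeval (fun i => lin (fun j => A⁻¹ i j)) (lin (A i)) = X i := by
    intro i
    rw [aeval_lin]
    have h2 : (fun j => ∑ i', A i i' * A⁻¹ i' j) = (1 : Matrix _ _ K) i := by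
      funext j
      rw [← Matrix.mul_nonsing_inv A hu]
      rfl
    rw [h2, lin]
    rw [Finset.sum_eq_single i]
    · simp
    · intro j _ hj
      simp [Matrix.one_apply_ne' hj]
    · simp
  have hprod : aeval (fun i => lin (fun j => A⁻¹ i j)) (∏ i, lin (a i) ^ (p - 1))
      = monomial (∑ i : Fin n, Finsupp.single i.succ (p - 1)) (1 : K) := by
    rw [map_prod, monomial_sum_one]
    refine Finset.prod_congr rfl fun i _ => ?_
    have := hlin i.succ
    have h3 : (A i.succ) = a i := by
      funext k; simp [A]
    rw [h3] at this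
    rw [map_pow, this, X_pow_eq_monomial]
  rw [map_mul, hprod] at hmem2
  have htop : topE (Fin (n + 1)) p = Finsupp.single 0 (p - 1)
      + ∑ i : Fin n, Finsupp.single i.succ (p - 1) := by
    ext i
    refine Fin.cases ?_ (fun i => ?_) i
    · simp
    · rw [Finsupp.add_apply, Finsupp.finsetSum_apply, Finset.sum_eq_single i]
      · simp
      · intro k _ hk
        rw [Finsupp.single_apply, if_neg]
        intro h; exact hk (Fin.succ_injective _ h)
      · simp
  rw [htop, coeff_mul_monomial, mul_one] at hmem2
  have hB2 : (aeval (fun i => lin (fun j => A⁻¹ i j)) B).IsHomogeneous (p - 1) := by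
    have := hB.aeval (fun i => lin (fun j => A⁻¹ i j)) (n := 1) (fun i => lin_homog _)
    simpa using this
  rw [coeff_single _ hB2] at hmem2
  apply hv
  rw [hvA, ← hmem2]
  have h5 := comp_aeval_apply (aeval (R := K) (Pi.single (0 : Fin (n + 1)) (1 : K)))
    (f := fun i => lin fun j => A⁻¹ i j) B
  have h6 : (eval (Pi.single (0 : Fin (n + 1)) (1 : K))) ((aeval fun i => lin fun j => A⁻¹ i j) B)
      = eval (fun i => eval (Pi.single (0 : Fin (n + 1)) (1 : K)) (lin fun j => A⁻¹ i j)) B := h5
  have h7 : (fun i => eval (Pi.single (0 : Fin (n + 1)) (1 : K)) (lin fun j => A⁻¹ i j))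
      = fun i => A⁻¹ i 0 := by
    funext i
    rw [eval_lin, Finset.sum_eq_single 0]
    · rw [Pi.single_eq_same, mul_one]
    · intro b _ hb
      rw [Pi.single_eq_of_ne hb, mul_zero]
    · intro h; exact absurd (Finset.mem_univ _) h
  rw [h6, h7]

end field

end Pool.Agent.Y162.HW
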