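import Pool.Agent.Y162.HW.Cyc

/-!
Finite families of systems of forms which specialise to arrangements.
-/

set_option autoImplicit false

namespace Pool.Agent.Y162.HW

open MvPolynomial

universe v

theorem famAbs {k : Type*} {κ : Type v} [Field k] [CharZero k] [Field κ] [CharZero κ]
    {I : Type*} [Fintype I] (n m : I → ℕ) (J : I → Type*) [∀ i, Fintype (J i)]
    (F : ∀ i, J i → MvPolynomial (Fin (n i + 1)) k) (O : Subring k) (φ : O →+* κ)
    (F' : ∀ i, J i → MvPolynomial (Fin (n i + 1)) O)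
    (hF' : ∀ i j, map O.subtype (F' i j) = F i j)
    (R : Subalgebra ℤ κ) (hR : R.FG) (E : ∀ i, ℕ → Finset (J i → ℕ))
    (H : ∀ i, ∀ p : ℕ, ∀ _ : Fact p.Prime, ∀ (R' : Subalgebra ℤ κ), R ≤ R' →
      ∀ (F₁ : J i → MvPolynomial (Fin (n i + 1)) R'),
      (∀ j, map (algebraMap R' κ) (F₁ j) = map φ (F' i j)) →
      ∀ (L : Type v) [Field L] [CharP L p] (ψ : R' →+* L), ∀ c ∈ E i p,
      (hwP (n i) (m i) p (∏ j, (map ψ (F₁ j)) ^ c j)).det ≠ 0)
    (A : Subalgebra ℤ k) (hA : A.FG) (G : ∀ i, J i → MvPolynomial (Fin (n i + 1)) A)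
    (hG : ∀ i j, map (algebraMap A k) (G i j) = F i j) (a : A) (ha : a ≠ 0) :
    ∃ N : ℕ, ∀ p : ℕ, N ≤ p → p.Prime → ∃ M : Ideal A, M.IsMaximal ∧ (p : A) ∈ M ∧ a ∉ M ∧
      ∀ i, ∀ c ∈ E i p,
        (hwP (n i) (m i) p (∏ j, (map (Ideal.Quotient.mk M) (G i j)) ^ c j)).det ≠ 0 := by
  classical
  let C₀ : Subalgebra ℤ k := Algebra.adjoin ℤ
    ((Finset.univ.biUnion fun i => Finset.univ.biUnion fun j => (F i j).coeffs : Finset k) : Set k)
  have hC₀ : C₀.FG := Subalgebra.fg_adjoin_finset _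
  have hCA : C₀ ≤ A := by
    refine Algebra.adjoin_le ?_
    intro x hx
    rw [Finset.mem_coe, Finset.mem_biUnion] at hx
    obtain ⟨i, -, hx⟩ := hx
    rw [Finset.mem_biUnion] at hx
    obtain ⟨j, -, hx⟩ := hx
    have : x ∈ (map (algebraMap A k) (G i j)).coeffs := by rw [hG]; exact hx
    have h2 := coe_coeffs_map (algebraMap A k) (G i j) this
    obtain ⟨y, _, rfl⟩ := h2
    exact y.2
  have hCO : C₀ ≤ subalgebraOfSubring O := by
    refine Algebra.adjoin_le ?_
    intro x hx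
    rw [Finset.mem_coe, Finset.mem_biUnion] at hx
    obtain ⟨i, -, hx⟩ := hx
    rw [Finset.mem_biUnion] at hx
    obtain ⟨j, -, hx⟩ := hx
    have : x ∈ (map O.subtype (F' i j)).coeffs := by rw [hF']; exact hx
    have h2 := coe_coeffs_map O.subtype (F' i j) this
    obtain ⟨y, _, rfl⟩ := h2
    exact y.2
  have hfC : Algebra.FiniteType ℤ C₀ := (Subalgebra.fg_iff_finiteType _).mp hC₀
  have hfA : Algebra.FiniteType ℤ A := (Subalgebra.fg_iff_finiteType _).mp hA
  have hFCex : ∀ i j, ∃ FC : MvPolynomial (Fin (n i + 1)) C₀,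
      map (algebraMap C₀ k) FC = F i j := by
    intro i j
    have : F i j ∈ Set.range (map (algebraMap C₀ k)) := by
      rw [mem_range_map_iff_coeffs_subset]
      intro x hx
      exact ⟨⟨x, Algebra.subset_adjoin (by
        rw [Finset.mem_coe, Finset.mem_biUnion]
        exact ⟨i, Finset.mem_univ _, Finset.mem_biUnion.2 ⟨j, Finset.mem_univ _, hx⟩⟩)⟩, rfl⟩
    exact this
  choose FC hFC using hFCex
  let f : C₀ →+* A := (Subalgebra.inclusion hCA).toRingHom
  have hf : Function.Injective f := Subalgebra.inclusion_injective hCA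
  let tO : C₀ →+* O := (algebraMap C₀ k).codRestrict O (fun x => hCO x.2)
  have hfG : ∀ i j, map f (FC i j) = G i j := by
    intro i j
    apply map_injective (algebraMap A k) (by exact Subtype.val_injective)
    rw [hG, map_map]
    exact hFC i j
  have htO : ∀ i j, map tO (FC i j) = F' i j := by
    intro i j
    apply map_injective O.subtype Subtype.val_injective
    rw [hF', map_map]
    exact hFC i j
  let t0 : C₀ →ₐ[ℤ] κ := (φ.comp tO).toIntAlgHom
  let R₁ : Subalgebra ℤ κ := t0.range ⊔ R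
  have hR₁ : R₁.FG := by
    refine Subalgebra.FG.sup ?_ hR
    rw [← Algebra.map_top]
    exact Subalgebra.FG.map _ hfC.1
  have hfR : Algebra.FiniteType ℤ R₁ := (Subalgebra.fg_iff_finiteType _).mp hR₁
  let t : C₀ →+* R₁ := (φ.comp tO).codRestrict R₁ (fun x => (le_sup_left : _ ≤ R₁) ⟨x, rfl⟩)
  have htF : ∀ i j, map (algebraMap R₁ κ) (map t (FC i j)) = map φ (F' i j) := by
    intro i j
    have h1 : (algebraMap R₁ κ).comp t = φ.comp tO := rfl
    rw [map_map, h1, ← map_map, htO]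
  have key := spread f hf t
    (fun p => ∏ i, ∏ c ∈ E i p, (hwP (n i) (m i) p (∏ j, FC i j ^ c j)).det) ?_ a ha
  · obtain ⟨N, hN⟩ := key
    refine ⟨N, fun p hp hpp => ?_⟩
    obtain ⟨M, hM, hpM, haM, hfM⟩ := hN p hp hpp
    refine ⟨M, hM, hpM, haM, fun i c hc h0 => ?_⟩
    apply hfM
    rw [map_prod]
    refine M.mem_of_dvd (Finset.dvd_prod_of_mem _ (Finset.mem_univ i)) ?_
    rw [map_prod]
    refine M.mem_of_dvd (Finset.dvd_prod_of_mem _ hc) ?_
    rw [← Ideal.Quotient.eq_zero_iff_mem, ← RingHom.comp_apply, det_hwP_map, map_prod]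
    simp only [map_pow, ← map_map, hfG]
    exact h0
  · refine ⟨0, fun p _ hp Q hQ hpQ hmem => ?_⟩
    have hpf : Fact p.Prime := ⟨hp⟩
    let L := FractionRing (R₁ ⧸ Q)
    let ψ : R₁ →+* L := (algebraMap (R₁ ⧸ Q) L).comp (Ideal.Quotient.mk Q)
    have hψ : ∀ x ∈ Q, ψ x = 0 := by
      intro x hx
      simp [ψ, Ideal.Quotient.eq_zero_iff_mem.mpr hx]
    have hpL : (p : L) = 0 := by
      have := hψ _ hpQ
      simpa using this
    have hCP : CharP L p := (CharP.charP_iff_prime_eq_zero hp).mpr hpL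
    rw [map_prod] at hmem
    obtain ⟨i, -, hmem⟩ := (Ideal.IsPrime.prod_mem_iff).mp hmem
    rw [map_prod] at hmem
    obtain ⟨c, hc, hcm⟩ := (Ideal.IsPrime.prod_mem_iff).mp hmem
    have := H i p hpf R₁ le_sup_right (fun j => map t (FC i j)) (htF i) L ψ c hc
    apply this
    have h6 := hψ _ hcm
    rw [← RingHom.comp_apply, det_hwP_map, map_prod] at h6
    simp only [map_pow, ← map_map] at h6
    exact h6

/-- the local computation -/
theorem localDet {κ : Type v} [Field κ] [CharZero κ] (n m : ℕ) {J : Type*} [Fintype J]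
    (l : Fin (m + n) → Fin (n + 1) → κ) (hl : GenPos l)
    (μ : J → Fin (m + n) → ℕ) (δ : J → ℕ) (q : J → MvPolynomial (Fin (n + 1)) κ)
    (hq : ∀ j, (q j).IsHomogeneous (δ j)) (hqv : ∀ j, NonvanishingAtVertices l (q j)) :
    ∃ R : Subalgebra ℤ κ, R.FG ∧ ∀ p : ℕ, ∀ _ : Fact p.Prime, ∀ (R' : Subalgebra ℤ κ), R ≤ R' →
      ∀ (F₁ : J → MvPolynomial (Fin (n + 1)) R'),
      (∀ j, map (algebraMap R' κ) (F₁ j) = q j * ∏ ι, lin (l ι) ^ μ j ι) →
      ∀ (L : Type v) [Field L] [CharP L p] (ψ : R' →+* L), ∀ c : J → ℕ,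
      (∀ ι, ∑ j, c j * μ j ι = p - 1) → ∑ j, c j * δ j = p - 1 →
      (hwP n m p (∏ j, (map ψ (F₁ j)) ^ c j)).det ≠ 0 := by
  classical
  let R : Subalgebra ℤ κ := Algebra.adjoin ℤ ((((
      (Finset.univ.image (fun ij : Fin (m + n) × Fin (n + 1) => l ij.1 ij.2)) ∪
      (Finset.univ.image (fun s : Fin (n + 1) ↪ Fin (m + n) =>
        ((Matrix.of fun i => l (s i)).det)⁻¹))) ∪
      (Finset.univ.biUnion fun j => (q j).coeffs)) ∪
      (Finset.univ.image (fun js : J × (Fin n ↪ Fin (m + n)) =>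
        (eval (vertex fun i => l (js.2 i)) (q js.1))⁻¹)) : Finset κ) : Set κ)
  have hR : R.FG := Subalgebra.fg_adjoin_finset _
  have hl1 : ∀ i j, l i j ∈ R := by
    intro i j
    refine Algebra.subset_adjoin ?_
    simp only [Finset.mem_coe, Finset.mem_union]
    left; left; left
    exact Finset.mem_image.mpr ⟨(i, j), Finset.mem_univ _, rfl⟩
  have hl2 : ∀ s : Fin (n + 1) ↪ Fin (m + n), ((Matrix.of fun i => l (s i)).det)⁻¹ ∈ R := by
    intro s
    refine Algebra.subset_adjoin ?_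
    simp only [Finset.mem_coe, Finset.mem_union]
    left; left; right
    exact Finset.mem_image.mpr ⟨s, Finset.mem_univ _, rfl⟩
  have hl3 : ∀ j, ∀ x ∈ (q j).coeffs, x ∈ R := by
    intro j x hx
    refine Algebra.subset_adjoin ?_
    simp only [Finset.mem_coe, Finset.mem_union]
    left; right
    exact Finset.mem_biUnion.mpr ⟨j, Finset.mem_univ _, hx⟩
  have hl4 : ∀ j, ∀ s : Fin n ↪ Fin (m + n), (eval (vertex fun i => l (s i)) (q j))⁻¹ ∈ R := by
    intro j s
    refine Algebra.subset_adjoin ?_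
    simp only [Finset.mem_coe, Finset.mem_union]
    right
    exact Finset.mem_image.mpr ⟨(j, s), Finset.mem_univ _, rfl⟩
  refine ⟨R, hR, fun p hpf R' hRR F₁ hF₁ L _ _ ψ c hcμ hcδ => ?_⟩
  have hp : p.Prime := hpf.out
  -- lifts to R'
  let l' : Fin (m + n) → Fin (n + 1) → R' := fun i j => ⟨l i j, hRR (hl1 i j)⟩
  have hq'ex : ∀ j, ∃ q' : MvPolynomial (Fin (n + 1)) R', map (algebraMap R' κ) q' = q j := by
    intro j
    have : q j ∈ Set.range (map (algebraMap R' κ)) := by
      rw [mem_range_map_iff_coeffs_subset]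
      intro x hx
      exact ⟨⟨x, hRR (hl3 j x hx)⟩, rfl⟩
    exact this
  choose q' hq' using hq'ex
  have hinj : Function.Injective (map (σ := Fin (n + 1)) (algebraMap R' κ)) :=
    map_injective _ (by exact Subtype.val_injective)
  have hF₁' : ∀ j, F₁ j = q' j * ∏ ι, lin (l' ι) ^ μ j ι := by
    intro j
    apply hinj
    rw [hF₁, map_mul, hq', map_prod]
    simp only [map_pow, map_lin]
    rfl
  have hq'hom : ∀ j, (map ψ (q' j)).IsHomogeneous (δ j) := by
    intro j
    refine IsHomogeneous.map ?_ ψ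
    intro v hv
    apply hq j
    rw [← hq' j, coeff_map]
    intro h0
    apply hv
    exact Subtype.val_injective h0
  have hgp : GenPos (fun i j => ψ (l' i j)) := by
    intro s hdet
    have h1 : ψ ((Matrix.of fun i => l' (s i)).det * ⟨_, hRR (hl2 s)⟩) = 0 := by
      rw [map_mul, RingHom.map_det]
      have : ψ.mapMatrix (Matrix.of fun i => l' (s i)) = Matrix.of fun i j => ψ (l' (s i) j) := by
        ext i j; rfl
      rw [this]
      have h2 : (Matrix.of fun i j => ψ (l' (s i) j)).det = 0 := hdet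
      rw [h2, zero_mul]
    have h2 : ((Matrix.of fun i => l' (s i)).det * ⟨_, hRR (hl2 s)⟩ : R') = 1 := by
      apply Subtype.val_injective
      have h3 : (((Matrix.of fun i => l' (s i)).det : R') : κ) =
          (Matrix.of fun i => l (s i)).det := by
        change (algebraMap R' κ) _ = _
        rw [RingHom.map_det]
        rfl
      change (((Matrix.of fun i => l' (s i)).det : R') : κ) *
        ((Matrix.of fun i => l (s i)).det)⁻¹ = 1
      rw [h3]
      exact mul_inv_cancel₀ (hl s)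
    rw [h2, map_one] at h1
    exact one_ne_zero h1
  have hqv' : ∀ j, NonvanishingAtVertices (fun i j => ψ (l' i j)) (map ψ (q' j)) := by
    intro j s h0
    have hev : ∀ {S : Type _} [CommRing S] (θ : R' →+* S),
        eval (vertex fun i => fun k => θ (l' (s i) k)) (map θ (q' j))
          = θ (eval (vertex fun i => l' (s i)) (q' j)) := by
      intro S _ θ
      rw [eval_map, eval, coe_eval₂Hom, eval₂_comp_left, RingHom.comp_id]
      congr 1
      funext k
      rw [Function.comp_apply, vertex_map]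
    have h1 : ψ (eval (vertex fun i => l' (s i)) (q' j) * ⟨_, hRR (hl4 j s)⟩) = 0 := by
      rw [map_mul, ← hev ψ]
      have h2 : eval (vertex fun i k => ψ (l' (s i) k)) (map ψ (q' j)) = 0 := h0
      rw [h2, zero_mul]
    have h2 : (eval (vertex fun i => l' (s i)) (q' j) * ⟨_, hRR (hl4 j s)⟩ : R') = 1 := by
      apply Subtype.val_injective
      have h3 := hev (algebraMap R' κ)
      rw [hq'] at h3
      have h4 : eval (vertex fun i => l (s i)) (q j)
        = (algebraMap R' κ) (eval (vertex fun i => l' (s i)) (q' j)) := h3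
      change (algebraMap R' κ) (eval (vertex fun i => l' (s i)) (q' j))
        * (eval (vertex fun i => l (s i)) (q j))⁻¹ = 1
      rw [← h4]
      exact mul_inv_cancel₀ (hqv j s)
    rw [h2, map_one] at h1
    exact one_ne_zero h1
  have hdet := det_ne_B p (m := m) (n := n) (fun i j => ψ (l' i j)) hgp
    (∏ j, (map ψ (q' j)) ^ c j) ?_ ?_
  · convert hdet using 3
    have hj : ∀ j, (map ψ (F₁ j)) ^ c j = (map ψ (q' j)) ^ c j
        * ∏ ι, lin (fun j => ψ (l' ι j)) ^ (μ j ι * c j) := by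
      intro j
      rw [hF₁' j, map_mul, mul_pow, map_prod, ← Finset.prod_pow]
      simp only [map_pow, map_lin, ← pow_mul]
    simp only [hj]
    rw [Finset.prod_mul_distrib]
    congr 1
    rw [Finset.prod_comm]
    refine Finset.prod_congr rfl fun ι _ => ?_
    rw [Finset.prod_pow_eq_pow_sum]
    congr 1
    rw [← hcμ ι]
    exact Finset.sum_congr rfl fun j _ => mul_comm _ _
  · have := IsHomogeneous.prod (Finset.univ : Finset J)
      (fun j => (map ψ (q' j)) ^ c j) (fun j => δ j * c j)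
      (fun j _ => (hq'hom j).pow _)
    rw [← hcδ]
    convert this using 1
    exact Finset.sum_congr rfl fun j _ => mul_comm _ _
  · intro s
    rw [map_prod]
    refine Finset.prod_ne_zero_iff.mpr fun j _ => ?_
    rw [map_pow]
    exact pow_ne_zero _ (hqv' j s)

/-- finite families of systems of forms -/
theorem jointMain {k : Type*} {κ : Type v} [Field k] [CharZero k] [Field κ] [CharZero κ]
    {I : Type*} [Fintype I] (n m : I → ℕ) (J : I → Type*) [∀ i, Fintype (J i)]
    (F : ∀ i, J i → MvPolynomial (Fin (n i + 1)) k) (O : Subring k) (φ : O →+* κ)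
    (F' : ∀ i, J i → MvPolynomial (Fin (n i + 1)) O)
    (hF' : ∀ i j, map O.subtype (F' i j) = F i j)
    (l : ∀ i, Fin (m i + n i) → Fin (n i + 1) → κ) (hl : ∀ i, GenPos (l i))
    (μ : ∀ i, J i → Fin (m i + n i) → ℕ) (δ : ∀ i, J i → ℕ)
    (q : ∀ i, J i → MvPolynomial (Fin (n i + 1)) κ)
    (hq : ∀ i j, (q i j).IsHomogeneous (δ i j))
    (hqv : ∀ i j, NonvanishingAtVertices (l i) (q i j))
    (hred : ∀ i j, map φ (F' i j) = q i j * ∏ ι, lin (l i ι) ^ μ i j ι)
    (A : Subalgebra ℤ k) (hA : A.FG) (G : ∀ i, J i → MvPolynomial (Fin (n i + 1)) A)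
    (hG : ∀ i j, map (algebraMap A k) (G i j) = F i j) (a : A) (ha : a ≠ 0) :
    ∃ N : ℕ, ∀ p : ℕ, N ≤ p → p.Prime → ∃ M : Ideal A, M.IsMaximal ∧ (p : A) ∈ M ∧ a ∉ M ∧
      ∀ i, ∀ c : J i → ℕ, (∀ j, c j < p) → (∀ ι, ∑ j, c j * μ i j ι = p - 1) →
        ∑ j, c j * δ i j = p - 1 →
        (hwP (n i) (m i) p (∏ j, (map (Ideal.Quotient.mk M) (G i j)) ^ c j)).det ≠ 0 := by
  classical
  choose R hR1 hR2 using fun i => localDet (n i) (m i) (l i) (hl i) (μ i) (δ i) (q i) (hq i) (hqv i)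
  let RR : Subalgebra ℤ κ := Finset.univ.sup R
  have hRR : RR.FG := by
    change (Finset.univ.sup R).FG
    induction (Finset.univ : Finset I) using Finset.induction_on with
    | empty => rw [Finset.sup_empty]; exact Subalgebra.fg_bot
    | insert i s _ ih => rw [Finset.sup_insert]; exact Subalgebra.FG.sup (hR1 i) ih
  obtain ⟨N, hN⟩ := famAbs n m J F O φ F' hF' RR hRR
    (fun i p => (Fintype.piFinset fun _ : J i => Finset.range p).filter fun c =>
      (∀ ι, ∑ j, c j * μ i j ι = p - 1) ∧ ∑ j, c j * δ i j = p - 1)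
    (fun i p hp R' hR' F₁ hF₁ L _ _ ψ c hc => by
      obtain ⟨-, h1, h2⟩ := Finset.mem_filter.1 hc
      exact hR2 i p hp R' ((Finset.le_sup (Finset.mem_univ i)).trans hR') F₁
        (fun j => (hF₁ j).trans (hred i j)) L ψ c h1 h2)
    A hA G hG a ha
  refine ⟨N, fun p hp hpp => ?_⟩
  obtain ⟨M, hM, hpM, haM, h⟩ := hN p hp hpp
  refine ⟨M, hM, hpM, haM, fun i c hc h1 h2 => h i c ?_⟩
  rw [Finset.mem_filter, Fintype.mem_piFinset]
  exact ⟨fun j => Finset.mem_range.2 (hc j), h1, h2⟩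

end Pool.Agent.Y162.HW
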