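import Mathlib

/-!
Spreading a nonvanishing property from a specialisation to closed points of a model.
-/

namespace Pool.Agent.Y162.HW

open PrimeSpectrum Topology

theorem jac_int : IsJacobsonRing ℤ := by
  rw [isJacobsonRing_iff_prime_eq]
  intro P hP
  by_cases h : P = ⊥
  · subst h
    rw [eq_bot_iff]
    intro x hx
    rw [Ideal.mem_jacobson_bot] at hx
    have h1 := hx x
    rw [Int.isUnit_iff] at h1
    rw [Ideal.mem_bot]
    rcases h1 with h1 | h1
    · have : x * x = 0 := by linarith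
      exact mul_self_eq_zero.1 this
    · exfalso
      nlinarith [mul_self_nonneg x]
  · have : P.IsMaximal := IsPrime.to_maximal_ideal h
    exact Ideal.jacobson_eq_self_of_isMaximal

/-- A constructible subset of the spectrum of a domain or its complement contains a nonempty
basic open set. -/
lemma constr {C : Type*} [CommRing C] [IsDomain C] {s : Set (PrimeSpectrum C)}
    (hs : IsConstructible s) :
    (∃ c : C, c ≠ 0 ∧ (basicOpen c : Set (PrimeSpectrum C)) ⊆ s) ∨
      (∃ c : C, c ≠ 0 ∧ (basicOpen c : Set (PrimeSpectrum C)) ⊆ sᶜ) := by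
  induction hs using IsConstructible.empty_union_induction with
  | open_retrocompact U hU _ =>
    by_cases hne : U = ∅
    · right; exact ⟨1, one_ne_zero, by simp [hne]⟩
    · left
      obtain ⟨x, hx⟩ := Set.nonempty_iff_ne_empty.mpr hne
      obtain ⟨_, ⟨f, rfl⟩, hxf, hfU⟩ :=
        isTopologicalBasis_basic_opens.exists_subset_of_mem_open hx hU
      refine ⟨f, ?_, hfU⟩
      rintro rfl
      simp at hxf
  | union s hs t ht hs' ht' =>
    rcases hs' with ⟨c, hc, hc'⟩ | ⟨c, hc, hc'⟩
    · left; exact ⟨c, hc, hc'.trans Set.subset_union_left⟩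
    · rcases ht' with ⟨d, hd, hd'⟩ | ⟨d, hd, hd'⟩
      · left; exact ⟨d, hd, hd'.trans Set.subset_union_right⟩
      · right
        refine ⟨c * d, mul_ne_zero hc hd, ?_⟩
        rw [basicOpen_mul, Set.compl_union]
        exact Set.inter_subset_inter hc' hd'
  | compl s hs hs' =>
    rw [compl_compl]; exact hs'.symm

/-- Generic lifting of primes (from the theorem of Chevalley). -/
lemma chev {C A : Type*} [CommRing C] [IsDomain C] [IsNoetherianRing C] [CommRing A] [IsDomain A]
    (f : C →+* A) (hf : Function.Injective f) (hft : f.FiniteType) (a : A) (ha : a ≠ 0) :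
    ∃ c : C, c ≠ 0 ∧ ∀ P : Ideal C, P.IsPrime → c ∉ P →
      ∃ Q : Ideal A, Q.IsPrime ∧ Q.comap f = P ∧ a ∉ Q := by
  have hfp : f.FinitePresentation := RingHom.FinitePresentation.of_finiteType.mp hft
  have hcon : IsConstructible (comap f '' (basicOpen a : Set (PrimeSpectrum A))) :=
    isConstructible_comap_image hfp isConstructible_basicOpen
  have hgen : (⟨⊥, Ideal.isPrime_bot⟩ : PrimeSpectrum C) ∈
      comap f '' (basicOpen a : Set (PrimeSpectrum A)) := by
    refine ⟨⟨⊥, Ideal.isPrime_bot⟩, ?_, ?_⟩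
    · simpa [mem_basicOpen] using ha
    · ext x
      simp only [comap_asIdeal, Ideal.mem_comap, Ideal.mem_bot]
      exact map_eq_zero_iff f hf
  rcases constr hcon with ⟨c, hc, hc'⟩ | ⟨c, hc, hc'⟩
  · refine ⟨c, hc, fun P hP hcP => ?_⟩
    obtain ⟨Q, hQ, hQP⟩ := hc' (show (⟨P, hP⟩ : PrimeSpectrum C) ∈ _ from hcP)
    refine ⟨Q.asIdeal, Q.isPrime, ?_, hQ⟩
    have := congrArg PrimeSpectrum.asIdeal hQP
    simpa using this
  · exfalso
    have : (⟨⊥, Ideal.isPrime_bot⟩ : PrimeSpectrum C) ∈ (basicOpen c : Set (PrimeSpectrum C)) := by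
      simpa [mem_basicOpen] using hc
    exact hc' this hgen

/-- A nonzero element of a noetherian domain of characteristic 0 lies in no minimal prime of `(p)`,
for all large primes `p`. -/
lemma large_primes {C : Type*} [CommRing C] [IsDomain C] [IsNoetherianRing C] [CharZero C]
    (c : C) (hc : c ≠ 0) : ∃ N : ℕ, ∀ p : ℕ, N ≤ p → p.Prime →
      ∀ P ∈ (Ideal.span {(p : C)}).minimalPrimes, c ∉ P := by
  have hfin : (Ideal.span {c}).minimalPrimes.Finite :=
    Ideal.finite_minimalPrimes_of_isNoetherianRing C _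
  have hone : ∀ R ∈ (Ideal.span {c}).minimalPrimes, {p : ℕ | p.Prime ∧ (p : C) ∈ R}.Finite := by
    intro R hR
    have hRp : R.IsPrime := hR.1.1
    refine Set.Subsingleton.finite ?_
    rintro p ⟨hp, hpR⟩ q ⟨hq, hqR⟩
    by_contra hne
    have hcop := (Nat.coprime_primes hp hq).mpr hne
    have h1 : (1 : C) ∈ R := by
      have hb := Nat.isCoprime_iff_coprime.mpr hcop
      obtain ⟨a, b, hab⟩ := hb
      have : (1 : C) = (a : C) * (p : C) + (b : C) * (q : C) := by exact_mod_cast hab.symm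
      rw [this]
      exact R.add_mem (R.mul_mem_left _ hpR) (R.mul_mem_left _ hqR)
    exact hRp.ne_top ((Ideal.eq_top_iff_one R).mpr h1)
  have hU := hfin.biUnion hone
  obtain ⟨N, hN⟩ := hU.bddAbove
  refine ⟨N + 1, fun p hNp hp P hP hcP => ?_⟩
  have hPp : P.IsPrime := hP.1.1
  have hpP : (p : C) ∈ P := hP.1.2 (Ideal.subset_span rfl)
  obtain ⟨R, hR, hRP⟩ := Ideal.exists_minimalPrimes_le
    (show Ideal.span {c} ≤ P by rw [Ideal.span_le]; simpa using hcP)
  have hRp : R.IsPrime := hR.1.1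
  have hcR : c ∈ R := hR.1.2 (Ideal.subset_span rfl)
  rcases eq_or_lt_of_le hRP with h | h
  · have : p ∈ ⋃ R ∈ (Ideal.span {c}).minimalPrimes, {p : ℕ | p.Prime ∧ (p : C) ∈ R} := by
      simp only [Set.mem_iUnion]
      exact ⟨R, hR, hp, h ▸ hpP⟩
    have := hN this
    omega
  · have hbot : (⊥ : Ideal C) < R := by
      rw [bot_lt_iff_ne_bot]
      rintro rfl
      exact hc (by simpa using hcR)
    have h1 := Ideal.height_le_one_of_isPrincipal_of_mem_minimalPrimes (Ideal.span {(p : C)}) P hP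
    have : (⊥ : Ideal C).IsPrime := Ideal.isPrime_bot
    have h2 := Ideal.height_add_one_le_of_lt_of_isPrime hbot
    have h3 := Ideal.height_add_one_le_of_lt_of_isPrime h
    have h4 : (⊥ : Ideal C).height + 1 + 1 ≤ 1 := by
      calc (⊥ : Ideal C).height + 1 + 1 ≤ R.height + 1 := by gcongr
        _ ≤ P.height := h3
        _ ≤ 1 := h1
    have h5 : (2 : ℕ∞) ≤ 1 := by
      calc (2 : ℕ∞) = 0 + 1 + 1 := by norm_num
        _ ≤ (⊥ : Ideal C).height + 1 + 1 := by gcongr; exact zero_le
        _ ≤ 1 := h4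
    exact absurd h5 (by decide)

/-- For a finitely generated domain `R` of characteristic 0 almost all primes are not units. -/
lemma exists_prime_over {R : Type*} [CommRing R] [IsDomain R] [CharZero R]
    [Algebra.FiniteType ℤ R] : ∃ N : ℕ, ∀ p : ℕ, N ≤ p → p.Prime →
      ∃ Q : Ideal R, Q.IsPrime ∧ (p : R) ∈ Q := by
  obtain ⟨c, hc, h⟩ := chev (Int.castRingHom R) (RingHom.injective_int _)
    (by
      have : (algebraMap ℤ R).FiniteType := RingHom.finiteType_algebraMap.mpr inferInstance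
      rwa [show algebraMap ℤ R = Int.castRingHom R from RingHom.ext_int _ _] at this)
    (1 : R) one_ne_zero
  refine ⟨c.natAbs + 1, fun p hNp hp => ?_⟩
  have hpr : (Ideal.span {(p : ℤ)}).IsPrime :=
    (Ideal.span_singleton_prime (by exact_mod_cast hp.ne_zero)).mpr
      (Nat.prime_iff_prime_int.mp hp)
  obtain ⟨Q, hQ, hQP, _⟩ := h (Ideal.span {(p : ℤ)}) hpr (by
    rw [Ideal.mem_span_singleton]
    intro hdvd
    have := Int.natAbs_dvd_natAbs.mpr hdvd
    have h1 := Nat.le_of_dvd (Int.natAbs_pos.mpr hc) this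
    simp at h1
    omega)
  refine ⟨Q, hQ, ?_⟩
  have : (p : ℤ) ∈ Q.comap (Int.castRingHom R) := by
    rw [hQP]; exact Ideal.subset_span rfl
  simpa using this

/-- Spreading a nonvanishing property of a specialisation `t : C → R` to closed points of
`Spec A`. -/
theorem spread {C A R : Type*} [CommRing C] [IsDomain C] [Algebra.FiniteType ℤ C] [CommRing A]
    [IsDomain A] [CharZero A] [Algebra.FiniteType ℤ A] [CommRing R] [IsDomain R] [CharZero R]
    [Algebra.FiniteType ℤ R] (f : C →+* A) (hf : Function.Injective f) (t : C →+* R) (h : ℕ → C)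
    (H : ∃ N : ℕ, ∀ p : ℕ, N ≤ p → p.Prime → ∀ Q : Ideal R, Q.IsPrime → (p : R) ∈ Q →
      t (h p) ∉ Q) (a : A) (ha : a ≠ 0) :
    ∃ N : ℕ, ∀ p : ℕ, N ≤ p → p.Prime →
      ∃ M : Ideal A, M.IsMaximal ∧ (p : A) ∈ M ∧ a ∉ M ∧ f (h p) ∉ M := by
  have hN : IsNoetherianRing C := Algebra.FiniteType.isNoetherianRing ℤ C
  have hC0 : CharZero C := by
    refine ⟨fun m n hmn => ?_⟩
    have := congrArg f hmn
    simpa using this
  have hJ : IsJacobsonRing A := by
    have := jac_int
    exact isJacobsonRing_of_finiteType (A := ℤ)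
  have hft : f.FiniteType := by
    have h1 : (f.comp (algebraMap ℤ C)).FiniteType := by
      have : (algebraMap ℤ A).FiniteType := RingHom.finiteType_algebraMap.mpr inferInstance
      rwa [show algebraMap ℤ A = f.comp (algebraMap ℤ C) from RingHom.ext_int _ _] at this
    exact RingHom.FiniteType.of_comp_finiteType h1
  obtain ⟨c, hc, hlift⟩ := chev f hf hft a ha
  obtain ⟨N1, hN1⟩ := large_primes c hc
  obtain ⟨N2, hN2⟩ := exists_prime_over (R := R)
  obtain ⟨N3, hN3⟩ := H
  refine ⟨max N1 (max N2 N3), fun p hNp hp => ?_⟩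
  obtain ⟨Q, hQ, hpQ⟩ := hN2 p ((le_max_left _ _).trans ((le_max_right _ _).trans hNp)) hp
  have hh := hN3 p ((le_max_right _ _).trans ((le_max_right _ _).trans hNp)) hp Q hQ hpQ
  have hle : Ideal.span {(p : C)} ≤ Q.comap t := by
    rw [Ideal.span_le]
    simpa using hpQ
  obtain ⟨P, hP, hPQ⟩ := Ideal.exists_minimalPrimes_le hle
  have hPp : P.IsPrime := hP.1.1
  have hcP := hN1 p ((le_max_left _ _).trans hNp) hp P hP
  have hhP : h p ∉ P := fun hm => hh (hPQ hm)
  obtain ⟨M0, hM0, hM0P, haM0⟩ := hlift P hPp hcP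
  have hfM0 : f (h p) ∉ M0 := by
    intro hm
    apply hhP
    rw [← hM0P]; exact hm
  have hpM0 : (p : A) ∈ M0 := by
    have : (p : C) ∈ M0.comap f := by rw [hM0P]; exact hP.1.2 (Ideal.subset_span rfl)
    simpa using this
  have hprod : a * f (h p) ∉ M0 := by
    intro hm
    rcases hM0.mem_or_mem hm with h1 | h1
    · exact haM0 h1
    · exact hfM0 h1
  have hjac : M0.jacobson = M0 := isJacobsonRing_iff_prime_eq.mp hJ M0 hM0
  rw [← hjac, Ideal.jacobson, Submodule.mem_sInf] at hprod
  push Not at hprod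
  obtain ⟨M, ⟨hM0M, hM⟩, hMa⟩ := hprod
  exact ⟨M, hM, hM0M hpM0, fun h1 => hMa (Ideal.mul_mem_right _ M h1),
    fun h1 => hMa (Ideal.mul_mem_left M _ h1)⟩

end Pool.Agent.Y162.HW
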