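import Pool.Agent.Y162.HW.Det
import Pool.Agent.Y162.HW.Spread

/-!
Hypersurfaces which specialise to a general arrangement of hyperplanes.
-/

namespace Pool.Agent.Y162.HW

open MvPolynomial

lemma map_lin {R S : Type*} [CommSemiring R] [CommSemiring S] {σ : Type*} [Fintype σ]
    (φ : R →+* S) (a : σ → R) : map φ (lin a) = lin (fun j => φ (a j)) := by
  simp [lin]

theorem main {k κ : Type*} [Field k] [CharZero k] [Field κ] [CharZero κ] (n m : ℕ)
    (F : MvPolynomial (Fin (n + 1)) k) (O : Subring k) (φ : O →+* κ)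
    (F' : MvPolynomial (Fin (n + 1)) O) (hF' : map O.subtype F' = F)
    (l : Fin (m + n + 1) → Fin (n + 1) → κ) (hl : GenPos l)
    (hred : map φ F' = ∏ i, lin (l i))
    (A : Subalgebra ℤ k) (hA : A.FG) (G : MvPolynomial (Fin (n + 1)) A)
    (hG : map (algebraMap A k) G = F) (a : A) (ha : a ≠ 0) :
    ∃ N : ℕ, ∀ p : ℕ, N ≤ p → p.Prime → ∃ M : Ideal A, M.IsMaximal ∧ (p : A) ∈ M ∧ a ∉ M ∧
      (hwMatrix n m p (map (Ideal.Quotient.mk M) G)).det ≠ 0 := by
  classical
  -- the ring generated by the coefficients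
  let C₀ : Subalgebra ℤ k := Algebra.adjoin ℤ (F.coeffs : Set k)
  have hC₀ : C₀.FG := Subalgebra.fg_adjoin_finset _
  have hCA : C₀ ≤ A := by
    refine Algebra.adjoin_le ?_
    intro x hx
    have : x ∈ (map (algebraMap A k) G).coeffs := by rw [hG]; exact hx
    have h2 := coe_coeffs_map (algebraMap A k) G this
    obtain ⟨y, _, rfl⟩ := h2
    exact y.2
  have hCO : C₀ ≤ subalgebraOfSubring O := by
    refine Algebra.adjoin_le ?_
    intro x hx
    have : x ∈ (map O.subtype F').coeffs := by rw [hF']; exact hx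
    have h2 := coe_coeffs_map O.subtype F' this
    obtain ⟨y, _, rfl⟩ := h2
    exact y.2
  have hfC : Algebra.FiniteType ℤ C₀ := (Subalgebra.fg_iff_finiteType _).mp hC₀
  have hfA : Algebra.FiniteType ℤ A := (Subalgebra.fg_iff_finiteType _).mp hA
  -- the polynomial over C₀
  obtain ⟨FC, hFC⟩ : ∃ FC : MvPolynomial (Fin (n + 1)) C₀, map (algebraMap C₀ k) FC = F := by
    have : F ∈ Set.range (map (algebraMap C₀ k)) := by
      rw [mem_range_map_iff_coeffs_subset]
      intro x hx
      exact ⟨⟨x, Algebra.subset_adjoin hx⟩, rfl⟩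
    exact this
  let f : C₀ →+* A := (Subalgebra.inclusion hCA).toRingHom
  have hf : Function.Injective f := Subalgebra.inclusion_injective hCA
  let tO : C₀ →+* O := (algebraMap C₀ k).codRestrict O (fun x => hCO x.2)
  have hfG : map f FC = G := by
    apply map_injective (algebraMap A k) (by exact Subtype.val_injective)
    rw [hG, map_map]
    exact hFC
  have htO : map tO FC = F' := by
    apply map_injective O.subtype Subtype.val_injective
    rw [hF', map_map]
    exact hFC
  -- the ring R₁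
  let t0 : C₀ →ₐ[ℤ] κ := (φ.comp tO).toIntAlgHom
  let R₁ : Subalgebra ℤ κ := t0.range ⊔
    (Algebra.adjoin ℤ ((Finset.univ.image (fun ij : Fin (m + n + 1) × Fin (n + 1) => l ij.1 ij.2) ∪
      Finset.univ.image (fun s : Fin (n + 1) ↪ Fin (m + n + 1) =>
        ((Matrix.of fun i => l (s i)).det)⁻¹) : Finset κ) : Set κ))
  have hR₁ : R₁.FG := by
    refine Subalgebra.FG.sup ?_ (Subalgebra.fg_adjoin_finset _)
    rw [← Algebra.map_top]
    exact Subalgebra.FG.map _ hfC.1
  have hfR : Algebra.FiniteType ℤ R₁ := (Subalgebra.fg_iff_finiteType _).mp hR₁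
  have hl1 : ∀ i j, l i j ∈ R₁ := by
    intro i j
    refine (le_sup_right : _ ≤ R₁) (Algebra.subset_adjoin ?_)
    rw [Finset.mem_coe, Finset.mem_union]
    left
    exact Finset.mem_image.mpr ⟨(i, j), Finset.mem_univ _, rfl⟩
  have hl2 : ∀ s : Fin (n + 1) ↪ Fin (m + n + 1), ((Matrix.of fun i => l (s i)).det)⁻¹ ∈ R₁ := by
    intro s
    refine (le_sup_right : _ ≤ R₁) (Algebra.subset_adjoin ?_)
    rw [Finset.mem_coe, Finset.mem_union]
    right
    exact Finset.mem_image.mpr ⟨s, Finset.mem_univ _, rfl⟩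
  let t : C₀ →+* R₁ := (φ.comp tO).codRestrict R₁ (fun x => (le_sup_left : _ ≤ R₁) ⟨x, rfl⟩)
  let l' : Fin (m + n + 1) → Fin (n + 1) → R₁ := fun i j => ⟨l i j, hl1 i j⟩
  have htF : map t FC = ∏ i, lin (l' i) := by
    apply map_injective (algebraMap R₁ κ) (by exact Subtype.val_injective)
    rw [map_map, map_prod]
    simp only [map_lin]
    have h1 : (algebraMap R₁ κ).comp t = φ.comp tO := rfl
    rw [h1, ← map_map, htO, hred]
    rfl
  have key := spread f hf t (fun p => (hwMatrix n m p FC).det) ?_ a ha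
  · obtain ⟨N, hN⟩ := key
    refine ⟨N, fun p hp hpp => ?_⟩
    obtain ⟨M, hM, hpM, haM, hfM⟩ := hN p hp hpp
    refine ⟨M, hM, hpM, haM, ?_⟩
    rw [← hfG, map_map, ← det_hwMatrix_map]
    intro h0
    apply hfM
    rw [← Ideal.Quotient.eq_zero_iff_mem]
    exact h0
  · refine ⟨0, fun p _ hp Q hQ hpQ hmem => ?_⟩
    have : Fact p.Prime := ⟨hp⟩
    let L := FractionRing (R₁ ⧸ Q)
    let ψ : R₁ →+* L := (algebraMap (R₁ ⧸ Q) L).comp (Ideal.Quotient.mk Q)
    have hψ : ∀ x ∈ Q, ψ x = 0 := by
      intro x hx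
      simp [ψ, Ideal.Quotient.eq_zero_iff_mem.mpr hx]
    have hpL : (p : L) = 0 := by
      have := hψ _ hpQ
      simpa using this
    have : CharP L p := (CharP.charP_iff_prime_eq_zero hp).mpr hpL
    have hgp : GenPos (fun i j => ψ (l' i j)) := by
      intro s hdet
      have h1 : ψ ((Matrix.of fun i => l' (s i)).det * ⟨_, hl2 s⟩) = 0 := by
        rw [map_mul, RingHom.map_det]
        have : ψ.mapMatrix (Matrix.of fun i => l' (s i)) = Matrix.of fun i j => ψ (l' (s i) j) := by
          ext i j; rfl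
        rw [this]
        have h2 : (Matrix.of fun i j => ψ (l' (s i) j)).det = 0 := hdet
        rw [h2, zero_mul]
      have h2 : ((Matrix.of fun i => l' (s i)).det * ⟨_, hl2 s⟩ : R₁) = 1 := by
        apply Subtype.val_injective
        have h3 : (((Matrix.of fun i => l' (s i)).det : R₁) : κ) = (Matrix.of fun i => l (s i)).det := by
          change (algebraMap R₁ κ) _ = _
          rw [RingHom.map_det]
          rfl
        change (((Matrix.of fun i => l' (s i)).det : R₁) : κ) * ((Matrix.of fun i => l (s i)).det)⁻¹ = 1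
        rw [h3]
        exact mul_inv_cancel₀ (hl s)
      rw [h2, map_one] at h1
      exact one_ne_zero h1
    have hne := det_ne p (m := m) (n := n) (fun i j => ψ (l' i j)) hgp
    apply hne
    have h4 : (∏ i, lin (fun j => ψ (l' i j))) = map (ψ.comp t) FC := by
      rw [← map_map, htF, map_prod]
      simp only [map_lin]
    have h5 : (∏ i, lin ((fun i j => ψ (l' i j)) i)) = map (ψ.comp t) FC := h4
    rw [h5, ← det_hwMatrix_map]
    exact hψ _ hmem

end Pool.Agent.Y162.HW
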