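import Mathlib

/-!
Powers of linear forms in characteristic p: if the linear forms ℓ_i (as many as variables) are
linearly independent, the coefficient of (∏ X_i)^(p-1) in ∏ ℓ_i^(p-1) is not zero.
-/

namespace Pool.Agent.Y162.HW

open MvPolynomial

/-- The linear form with coefficient vector `a`. -/
noncomputable def lin {K : Type*} [CommSemiring K] {σ : Type*} [Fintype σ] (a : σ → K) :
    MvPolynomial σ K := ∑ j, C (a j) * X j

/-- The exponent vector (p-1, ..., p-1). -/
noncomputable def topE (σ : Type*) [Fintype σ] (p : ℕ) : σ →₀ ℕ :=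
  Finsupp.equivFunOnFinite.symm (fun _ => p - 1)

@[simp] lemma topE_apply (σ : Type*) [Fintype σ] (p : ℕ) (i : σ) : topE σ p i = p - 1 := rfl

section top
variable {K : Type*} [Field K] {σ : Type*} [Fintype σ]

/-- The ideal generated by the p-th powers of the variables. -/
noncomputable def frobI (K : Type*) [Field K] (σ : Type*) (p : ℕ) : Ideal (MvPolynomial σ K) :=
  Ideal.span ((fun s => monomial s (1 : K)) '' (Set.range fun i : σ => Finsupp.single i p))

omit [Fintype σ] in
lemma X_pow_mem (p : ℕ) (i : σ) : (X i : MvPolynomial σ K) ^ p ∈ frobI K σ p := by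
  refine Ideal.subset_span ⟨Finsupp.single i p, ⟨i, rfl⟩, ?_⟩
  simp [X_pow_eq_monomial]

lemma aeval_lin {τ : Type*} [Fintype τ] (B : σ → τ → K) (a : σ → K) :
    aeval (fun i => lin (B i)) (lin a) = lin (fun j => ∑ i, a i * B i j) := by
  unfold lin
  simp only [map_sum, map_mul, aeval_X, algHom_C, algebraMap_eq, Finset.mul_sum]
  rw [Finset.sum_comm]
  refine Finset.sum_congr rfl fun j _ => ?_
  simp only [Finset.sum_mul, mul_assoc]

lemma aeval_mem (p : ℕ) [Fact p.Prime] [CharP K p] (B : σ → σ → K) {f : MvPolynomial σ K}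
    (hf : f ∈ frobI K σ p) : aeval (fun i => lin (B i)) f ∈ frobI K σ p := by
  have h1 : frobI K σ p ≤ (frobI K σ p).comap (aeval (fun i => lin (B i))).toRingHom := by
    conv_lhs => rw [frobI]
    rw [Ideal.span_le]
    rintro _ ⟨_, ⟨i, rfl⟩, rfl⟩
    simp only [AlgHom.toRingHom_eq_coe, Ideal.coe_comap, RingHom.coe_coe, Set.mem_preimage,
      SetLike.mem_coe]
    rw [← X_pow_eq_monomial, map_pow, aeval_X, lin, sum_pow_char]
    refine Ideal.sum_mem _ fun j _ => ?_
    rw [mul_pow]
    exact Ideal.mul_mem_left _ _ (X_pow_mem p j)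
  exact h1 hf

lemma top_notMem (p : ℕ) [Fact p.Prime] : monomial (topE σ p) (1 : K) ∉ frobI K σ p := by
  classical
  intro h
  rw [frobI, mem_ideal_span_monomial_image] at h
  have hs : topE σ p ∈ (monomial (topE σ p) (1 : K)).support := by
    simp [mem_support_iff]
  obtain ⟨_, ⟨i, rfl⟩, hle⟩ := h _ hs
  have := hle i
  simp at this
  have := (Fact.out : p.Prime).one_lt
  omega

lemma mem_of_homog [Nonempty σ] (p : ℕ) [Fact p.Prime] {f : MvPolynomial σ K}
    (hf : f.IsHomogeneous (Fintype.card σ * (p - 1))) (h0 : coeff (topE σ p) f = 0) :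
    f ∈ frobI K σ p := by
  classical
  rw [frobI, mem_ideal_span_monomial_image]
  intro s hs
  have hdeg : s.degree = Fintype.card σ * (p - 1) := by
    have := hf (mem_support_iff.mp hs)
    rw [← this]; exact DFunLike.congr_fun Finsupp.degree_eq_weight_one s
  have hp := (Fact.out : p.Prime).one_lt
  by_contra hcon
  push Not at hcon
  have hlt : ∀ i, s i ≤ p - 1 := by
    intro i
    have := hcon (Finsupp.single i p) ⟨i, rfl⟩
    have h2 : ¬ p ≤ s i := by
      intro h
      apply this
      intro j
      by_cases hj : i = j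
      · subst hj; simpa using h
      · simp [hj]
    omega
  have hsum : ∑ i, s i = ∑ _i : σ, (p - 1) := by
    rw [Finsupp.degree_eq_sum] at hdeg
    rw [hdeg]; simp
  have heq := (Finset.sum_eq_sum_iff_of_le (fun i _ => hlt i)).mp hsum
  have : s = topE σ p := by
    ext i; simpa using heq i (Finset.mem_univ i)
  rw [this] at hs
  exact (mem_support_iff.mp hs) h0

lemma lin_homog (a : σ → K) : (lin a).IsHomogeneous 1 := by
  unfold lin
  refine IsHomogeneous.sum _ _ _ fun j _ => ?_
  have := (isHomogeneous_C σ (a j)).mul (isHomogeneous_X K j)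
  simpa using this

/-- The top coefficient is not zero. -/
theorem top_ne [DecidableEq σ] [Nonempty σ] (p : ℕ) [Fact p.Prime] [CharP K p] (A : Matrix σ σ K)
    (hA : A.det ≠ 0) : coeff (topE σ p) (∏ i, lin (A i) ^ (p - 1)) ≠ 0 := by
  intro h0
  have hhom : (∏ i, lin (A i) ^ (p - 1)).IsHomogeneous (Fintype.card σ * (p - 1)) := by
    have := IsHomogeneous.prod (Finset.univ : Finset σ) (fun i => lin (A i) ^ (p - 1))
      (fun _ => 1 * (p - 1)) (fun i _ => (lin_homog (A i)).pow (p - 1))
    simpa using this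
  have hmem := mem_of_homog p hhom h0
  have hmem2 := aeval_mem p (fun i j => A⁻¹ i j) hmem
  have heq : aeval (fun i => lin (fun j => A⁻¹ i j)) (∏ i, lin (A i) ^ (p - 1))
      = monomial (topE σ p) (1 : K) := by
    rw [map_prod]
    have h1 : ∀ i, aeval (fun i => lin (fun j => A⁻¹ i j)) (lin (A i) ^ (p - 1)) = (X i) ^ (p - 1) := by
      intro i
      rw [map_pow, aeval_lin]
      congr 1
      have h2 : (fun j => ∑ i', A i i' * A⁻¹ i' j) = (1 : Matrix σ σ K) i := by
        funext j
        rw [← Matrix.mul_nonsing_inv A (isUnit_iff_ne_zero.mpr hA)]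
        rfl
      rw [h2, lin]
      rw [Finset.sum_eq_single i]
      · simp
      · intro j _ hj
        simp [Matrix.one_apply_ne' hj]
      · simp
    simp only [h1]
    rw [monomial_eq]
    simp [Finsupp.prod_fintype]
  rw [heq] at hmem2
  exact top_notMem p hmem2

end top

end Pool.Agent.Y162.HW
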